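import Mathlib

namespace Pool.Agent.Lib.MP_ab3705_an

/-- The vector `sum of v i • x i` for a finitely supported rational sequence `v`. -/
noncomputable def comb {X : Type*} [AddCommGroup X] [Module ℝ X] (x : ℕ → X) (v : ℕ →₀ ℚ) : X :=
  v.sum fun i q => (q : ℝ) • x i

/-- The isometry class of `X` among the pseudonorms on the finitely supported rational sequences:
`μ` is the norm of `X` pulled back along a sequence whose rational combinations are dense. -/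
def cls (X : Type*) [NormedAddCommGroup X] [NormedSpace ℝ X] : Set ((ℕ →₀ ℚ) → ℝ) :=
  {μ | ∃ x : ℕ → X, DenseRange (comb x) ∧ ∀ v, μ v = ‖comb x v‖}

/-- Pseudonorms for which the basis vectors stay linearly independent over the reals in the
completion. -/
def Bind : Set ((ℕ →₀ ℚ) → ℝ) :=
  {μ | (∀ v, 0 ≤ μ v) ∧ (∀ (q : ℚ) v, μ (q • v) = |(q : ℝ)| * μ v) ∧
    (∀ u v, μ (u + v) ≤ μ u + μ v) ∧
    ∀ n : ℕ, ∃ c : ℝ, 0 < c ∧ ∀ v : ℕ →₀ ℚ, (∀ i, n ≤ i → v i = 0) → ∀ i, c * |(v i : ℝ)| ≤ μ v}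

/-- The defining extension property of the Gurarii space. -/
def Gurarii (X : Type*) [NormedAddCommGroup X] [NormedSpace ℝ X] : Prop :=
  ∀ (F : Type) [NormedAddCommGroup F] [NormedSpace ℝ F] [FiniteDimensional ℝ F]
    (E : Submodule ℝ F) (T : E →ₗᵢ[ℝ] X) (ε : ℝ), 0 < ε →
    ∃ T' : F →ₗ[ℝ] X, (∀ x : E, T' x = T x) ∧
      ∀ x, (1 - ε) * ‖x‖ ≤ ‖T' x‖ ∧ ‖T' x‖ ≤ (1 + ε) * ‖x‖

end Pool.Agent.Lib.MP_ab3705_an
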