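import Pool.Agent.Lib.MP_ab3705_an.DvC

/-!
Dvoretzky's theorem with parameters.
-/

set_option autoImplicit false

open MeasureTheory ProbabilityTheory Filter Topology
open scoped RealInnerProductSpace

noncomputable section

namespace Pool.Agent.Lib.MP_ab3705_an

variable {X : Type*} [NormedAddCommGroup X] [NormedSpace ℝ X]

/-- A matrix `ω` acting on a vector `h`. -/
def act {k m : ℕ} (ω : EuclideanSpace ℝ (Fin k × Fin m)) :
    EuclideanSpace ℝ (Fin k) →ₗ[ℝ] EuclideanSpace ℝ (Fin m) where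
  toFun h := WithLp.toLp 2 fun i => ∑ j, h j * ω (j, i)
  map_add' h h' := by ext i; simp [add_mul, Finset.sum_add_distrib]
  map_smul' c h := by ext i; simp [Finset.mul_sum, mul_assoc]

theorem act_cont {k m : ℕ} (h : EuclideanSpace ℝ (Fin k)) :
    Continuous fun ω : EuclideanSpace ℝ (Fin k × Fin m) => act ω h := by
  change Continuous fun ω : EuclideanSpace ℝ (Fin k × Fin m) =>
    (WithLp.toLp 2 fun i => ∑ j, h j * ω (j, i) : EuclideanSpace ℝ (Fin m))
  fun_prop

theorem act_law {k m : ℕ} (h : EuclideanSpace ℝ (Fin k)) :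
    (stdGaussian (EuclideanSpace ℝ (Fin k × Fin m))).map (fun ω => act ω h)
      = (stdGaussian (EuclideanSpace ℝ (Fin m))).map (fun a => ‖h‖ • a) := by
  have hc : Continuous fun a : EuclideanSpace ℝ (Fin m) => ‖h‖ • a := by fun_prop
  have := Measure.isProbabilityMeasure_map (μ := stdGaussian (EuclideanSpace ℝ (Fin k × Fin m)))
    (act_cont (m := m) h).aemeasurable
  have := Measure.isProbabilityMeasure_map (μ := stdGaussian (EuclideanSpace ℝ (Fin m)))
    hc.aemeasurable
  apply Measure.ext_of_charFun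
  ext t
  let u : EuclideanSpace ℝ (Fin k × Fin m) := WithLp.toLp 2 fun p => h p.1 * t p.2
  have h1 : ∀ ω : EuclideanSpace ℝ (Fin k × Fin m), ⟪act ω h, t⟫ = ⟪ω, u⟫ := by
    intro ω
    simp only [act, u, PiLp.inner_apply, LinearMap.coe_mk, AddHom.coe_mk, RCLike.inner_apply,
      conj_trivial, Fintype.sum_prod_type_right, Finset.mul_sum]
    exact Finset.sum_congr rfl fun i _ => Finset.sum_congr rfl fun j _ => by ring
  have h2 : ∀ a : EuclideanSpace ℝ (Fin m), ⟪‖h‖ • a, t⟫ = ⟪a, ‖h‖ • t⟫ := by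
    intro a; rw [real_inner_smul_left, real_inner_smul_right]
  have h3 : ‖u‖ ^ 2 = ‖‖h‖ • t‖ ^ 2 := by
    rw [norm_smul, norm_norm, mul_pow]
    simp only [EuclideanSpace.real_norm_sq_eq, u, Fintype.sum_prod_type, mul_pow,
      Finset.sum_mul_sum]
  rw [charFun_apply, charFun_apply, integral_map (act_cont h).aemeasurable
    (Continuous.aestronglyMeasurable (by fun_prop)), integral_map hc.aemeasurable
    (Continuous.aestronglyMeasurable (by fun_prop))]
  simp only [h1, h2]
  rw [← charFun_apply, ← charFun_apply, charFun_stdGaussian, charFun_stdGaussian,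
    ← Complex.ofReal_pow, ← Complex.ofReal_pow, h3]

theorem one_step (hX : ¬ FiniteDimensional ℝ X) {M : ℝ} (hM : 0 < M) :
    ∃ n : X → ℝ → ℝ, (∀ x, n x 0 = ‖x‖) ∧ (∀ r, 0 ≤ r → n 0 r = r) ∧
      (∀ x r, |n x r| ≤ ‖x‖ + |r|) ∧
      ∀ (k : ℕ) (ι : Type) (S : Finset ι) (x : ι → X) (h : ι → EuclideanSpace ℝ (Fin k)),
        ∃ T : EuclideanSpace ℝ (Fin k) →ₗ[ℝ] X, ∀ p ∈ S,
          |‖x p + T (h p)‖ - n (x p) ‖h p‖| ≤ (∑ q ∈ S, 5 * (‖h q‖ + 1)) / M := by
  obtain ⟨m, A, hA, hA'⟩ := exists_big_mean hX M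
  set γ := stdGaussian (EuclideanSpace ℝ (Fin m)) with hγ
  set c := ∫ a, ‖A a‖ ∂γ with hc
  have hc0 : 0 < c := hM.trans_le hA'
  have hi : Integrable (fun a => ‖A a‖) γ := by simpa using integrable_norm_add A 0
  have hn : ∀ (r : ℝ) a, ‖((r / c) • A) a‖ = |r| / c * ‖A a‖ := fun r a => by
    rw [smul_apply, norm_smul, Real.norm_eq_abs, abs_div, abs_of_pos hc0]
  have hn' : ∀ r : ℝ, ∫ a, ‖((r / c) • A) a‖ ∂γ = |r| := fun r => by
    simp only [hn]
    rw [integral_const_mul, ← hc, div_mul_cancel₀ _ hc0.ne']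
  refine ⟨fun x r => ∫ a, ‖x + ((r / c) • A) a‖ ∂γ, fun x => by simp, fun r hr => ?_,
    fun x r => ?_, fun k ι S x h => ?_⟩
  · simp only [zero_add]; rw [hn', abs_of_nonneg hr]
  · have hi2 : Integrable (fun a => ‖((r / c) • A) a‖) γ := by
      simpa using integrable_norm_add ((r / c) • A) 0
    rw [abs_of_nonneg (integral_nonneg fun a => norm_nonneg _), ← hn' r]
    refine (integral_mono (integrable_norm_add _ x) ((integrable_const ‖x‖).add hi2)
      fun a => norm_add_le _ _).trans (le_of_eq ?_)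
    rw [integral_add' (integrable_const _) hi2]
    simp
  · set Γ := stdGaussian (EuclideanSpace ℝ (Fin k × Fin m)) with hΓ
    let n : X → ℝ → ℝ := fun x r => ∫ a, ‖x + ((r / c) • A) a‖ ∂γ
    let g : ι → EuclideanSpace ℝ (Fin m) → ℝ := fun p b => |‖x p + (c⁻¹ • A) b‖ - n (x p) ‖h p‖|
    have hgc : ∀ p, Continuous (g p) := fun p => by simp only [g]; fun_prop
    have hs : ∀ p, Continuous fun a : EuclideanSpace ℝ (Fin m) => ‖h p‖ • a := fun p => by fun_prop
    have hg : ∀ p a, g p (‖h p‖ • a) = |‖x p + ((‖h p‖ / c) • A) a‖ - n (x p) ‖h p‖| := by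
      intro p a
      simp only [g, smul_apply, map_smul, smul_smul, div_eq_mul_inv, mul_comm]
    have hgi : ∀ p, Integrable (fun ω => g p (act ω (h p))) Γ := by
      intro p
      refine (integrable_map_measure (hgc p).aestronglyMeasurable
        (act_cont (h p)).aemeasurable).1 ?_
      rw [act_law]
      refine (integrable_map_measure (hgc p).aestronglyMeasurable (hs p).aemeasurable).2 ?_
      have : g p ∘ (fun a => ‖h p‖ • a)
          = fun a => |‖x p + ((‖h p‖ / c) • A) a‖ - n (x p) ‖h p‖| := funext (hg p)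
      rw [this]
      exact ((integrable_norm_add _ _).sub (integrable_const _)).abs
    have hgl : ∀ p, ∫ ω, g p (act ω (h p)) ∂Γ ≤ 5 * (‖h p‖ + 1) / M := by
      intro p
      rw [← integral_map (act_cont (h p)).aemeasurable (hgc p).aestronglyMeasurable, act_law,
        integral_map (hs p).aemeasurable (hgc p).aestronglyMeasurable]
      simp only [hg]
      rw [mul_div_assoc]
      refine conc _ _ (by positivity) ?_
      rw [norm_smul, Real.norm_eq_abs, abs_of_nonneg (by positivity)]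
      refine (mul_le_of_le_one_right (by positivity) hA).trans ?_
      gcongr
      linarith
    obtain ⟨ω, hω⟩ := exists_le_integral (μ := Γ) (f := fun ω => ∑ p ∈ S, g p (act ω (h p)))
      (integrable_finsetSum S fun p _ => hgi p)
    rw [integral_finsetSum S fun p _ => hgi p] at hω
    refine ⟨((c⁻¹ • A : _ →L[ℝ] X) : _ →ₗ[ℝ] X) ∘ₗ act ω, fun p hp => ?_⟩
    have h1 : g p (act ω (h p)) ≤ ∑ q ∈ S, g q (act ω (h q)) :=
      Finset.single_le_sum (f := fun q => g q (act ω (h q))) (fun q _ => abs_nonneg _) hp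
    rw [Finset.sum_div]
    exact h1.trans (hω.trans (Finset.sum_le_sum fun q _ => hgl q))

/-- Dvoretzky's theorem with parameters. -/
theorem dvoretzky_param (hX : ¬ FiniteDimensional ℝ X) :
    ∃ N : X → ℝ → ℝ, (∀ x, N x 0 = ‖x‖) ∧ (∀ r, 0 ≤ r → N 0 r = r) ∧
      ∀ (H : Type) [NormedAddCommGroup H] [InnerProductSpace ℝ H]
        (ι : Type) (S : Finset ι) (x : ι → X) (h : ι → H) (η : ℝ), 0 < η →
        ∃ T : H →ₗ[ℝ] X, ∀ p ∈ S, |‖x p + T (h p)‖ - N (x p) ‖h p‖| < η := by
  have key := fun t : ℕ => one_step hX (M := (t : ℝ) + 1) (by positivity)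
  choose n hn0 hn1 hn2 hn3 using key
  have hl : ∀ x r, ∃ a, Tendsto (fun t => n t x r) (hyperfilter ℕ) (𝓝 a) := by
    intro x r
    obtain ⟨a, -, ha⟩ := (isCompact_Icc (a := -(‖x‖ + |r|)) (b := ‖x‖ + |r|)).ultrafilter_le_nhds
      ((hyperfilter ℕ).map fun t => n t x r)
      (le_principal_iff.2 (mem_map.2 (univ_mem' fun t => abs_le.1 (hn2 t x r))))
    exact ⟨a, ha⟩
  choose N hN using hl
  refine ⟨N, fun x => ?_, fun r hr => ?_, fun H _ _ ι S x h η hη => ?_⟩
  · have := hN x 0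
    simp only [hn0] at this
    exact tendsto_nhds_unique this tendsto_const_nhds
  · have := hN 0 r
    simp only [fun t => hn1 t r hr] at this
    exact tendsto_nhds_unique this tendsto_const_nhds
  · let K : Submodule ℝ H := Submodule.span ℝ (h '' (S : Set ι))
    have : FiniteDimensional ℝ K := FiniteDimensional.span_of_finite ℝ (S.finite_toSet.image h)
    let e := (stdOrthonormalBasis ℝ K).repr
    let P : H →ₗ[ℝ] EuclideanSpace ℝ (Fin (Module.finrank ℝ K)) :=
      e.toLinearEquiv.toLinearMap ∘ₗ (K.orthogonalProjectionOnto : H →ₗ[ℝ] K)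
    have hP : ∀ p ∈ S, ‖P (h p)‖ = ‖h p‖ := by
      intro p hp
      change ‖e (K.orthogonalProjectionOnto (h p))‖ = _
      rw [e.norm_map]
      exact K.norm_orthogonalProjectionOnto_apply (Submodule.subset_span ⟨p, hp, rfl⟩)
    set C := ∑ q ∈ S, 5 * (‖P (h q)‖ + 1) with hC
    have e1 : ∀ᶠ t : ℕ in hyperfilter ℕ, C / ((t : ℝ) + 1) < η / 2 := by
      refine (Nat.hyperfilter_le_atTop) ?_
      have : Tendsto (fun t : ℕ => C / ((t : ℝ) + 1)) atTop (𝓝 0) :=
        tendsto_const_nhds.div_atTop (tendsto_natCast_atTop_atTop.atTop_add tendsto_const_nhds)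
      exact this.eventually (gt_mem_nhds (by positivity))
    have e2 : ∀ᶠ t : ℕ in hyperfilter ℕ, ∀ p ∈ S, |n t (x p) ‖h p‖ - N (x p) ‖h p‖| < η / 2 := by
      rw [Finset.eventually_all]
      intro p _
      have := Metric.tendsto_nhds.1 (hN (x p) ‖h p‖) (η / 2) (by positivity)
      simpa only [Real.dist_eq] using this
    obtain ⟨t, ht1, ht2⟩ := (e1.and e2).exists
    obtain ⟨T, hT⟩ := hn3 t _ ι S x fun p => P (h p)
    refine ⟨T ∘ₗ P, fun p hp => ?_⟩
    have h1 := hT p hp
    have h2 := ht2 p hp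
    rw [hP p hp, ← hC] at h1
    have h3 := abs_sub_le ‖x p + T (P (h p))‖ (n t (x p) ‖h p‖) (N (x p) ‖h p‖)
    change |‖x p + T (P (h p))‖ - N (x p) ‖h p‖| < η
    linarith

end Pool.Agent.Lib.MP_ab3705_an
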