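import Mathlib

/-!
The Dvoretzky–Rogers lemma: in an infinite-dimensional normed space there are, for every `m`,
contractions from Euclidean `m`-space whose values on the basis vectors have norm at least `1/3`.
-/

set_option autoImplicit false

open Module
open scoped RealInnerProductSpace

noncomputable section

namespace Pool.Agent.Lib.MP_ab3705_an

variable {X : Type*} [NormedAddCommGroup X] [NormedSpace ℝ X]

theorem exists_max_det {E : Type*} [NormedAddCommGroup E] [InnerProductSpace ℝ E]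
    [FiniteDimensional ℝ E] (B : E →L[ℝ] X) (hB : LinearMap.ker (B : E →ₗ[ℝ] X) = ⊥) :
    ∃ T : E →L[ℝ] E, (∀ a, ‖B (T a)‖ ≤ ‖a‖) ∧ T.det ≠ 0 ∧
      ∀ S : E →L[ℝ] E, (∀ a, ‖B (S a)‖ ≤ ‖a‖) → |S.det| ≤ |T.det| := by
  obtain ⟨C, -, hC⟩ := LinearMap.exists_antilipschitzWith (B : E →ₗ[ℝ] X) hB
  set K : Set (E →L[ℝ] E) := {T | ∀ a, ‖B (T a)‖ ≤ ‖a‖} with hK
  have hcl : IsClosed K := by
    have : K = ⋂ a, {T : E →L[ℝ] E | ‖B (T a)‖ ≤ ‖a‖} := by ext T; simp [hK]
    rw [this]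
    exact isClosed_iInter fun a => isClosed_le (by fun_prop) continuous_const
  have hbd : Bornology.IsBounded K := by
    refine (Metric.isBounded_closedBall (x := (0 : E →L[ℝ] E)) (r := C)).subset fun T hT => ?_
    rw [mem_closedBall_zero_iff]
    refine T.opNorm_le_bound C.2 fun a => ?_
    have h1 := hC.le_mul_dist (T a) 0
    simp only [dist_zero_right, map_zero, ContinuousLinearMap.coe_coe] at h1
    exact h1.trans (mul_le_mul_of_nonneg_left (hT a) C.2)
  have hc : IsCompact K := Metric.isCompact_of_isClosed_isBounded hcl hbd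
  have hp : 0 < ‖B‖ + 1 := by positivity
  have h1 : ((‖B‖ + 1)⁻¹ • ContinuousLinearMap.id ℝ E) ∈ K := by
    intro a
    simp only [smul_apply, ContinuousLinearMap.id_apply, map_smul, norm_smul,
      norm_inv, Real.norm_eq_abs, abs_of_pos hp]
    rw [inv_mul_le_iff₀ hp]
    have := B.le_opNorm a
    nlinarith [norm_nonneg a]
  obtain ⟨T, hT, hmax⟩ := hc.exists_isMaxOn ⟨_, h1⟩
    (ContinuousLinearMap.continuous_det.abs).continuousOn
  refine ⟨T, hT, ?_, fun S hS => hmax hS⟩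
  have h2 : |((‖B‖ + 1)⁻¹ • ContinuousLinearMap.id ℝ E).det| ≤ |T.det| := hmax h1
  have h3 : ((‖B‖ + 1)⁻¹ • ContinuousLinearMap.id ℝ E).det = (‖B‖ + 1)⁻¹ ^ finrank ℝ E := by
    simp [ContinuousLinearMap.det, LinearMap.det_smul]
  rw [h3] at h2
  intro h0
  rw [h0, abs_zero] at h2
  have : 0 < |(‖B‖ + 1)⁻¹ ^ finrank ℝ E| := by positivity
  linarith

theorem exists_big_orth {E : Type*} [NormedAddCommGroup E] [InnerProductSpace ℝ E]
    [FiniteDimensional ℝ E] (B : E →L[ℝ] X) (T : E →L[ℝ] E) (hT : ∀ a, ‖B (T a)‖ ≤ ‖a‖)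
    (h0 : T.det ≠ 0) (hmax : ∀ S : E →L[ℝ] E, (∀ a, ‖B (S a)‖ ≤ ‖a‖) → |S.det| ≤ |T.det|)
    (K : Submodule ℝ E) (hK : 2 * finrank ℝ K < finrank ℝ E) :
    ∃ w ∈ Kᗮ, ‖w‖ = 1 ∧ 1 / 3 ≤ ‖B (T w)‖ := by
  by_contra hcon
  push Not at hcon
  have hs : ∀ w ∈ Kᗮ, ‖B (T w)‖ ≤ 1 / 3 * ‖w‖ := by
    intro w hw
    rcases eq_or_ne w 0 with rfl | hw0
    · simp
    have hn : 0 < ‖w‖ := norm_pos_iff.2 hw0
    have h1 := hcon (‖w‖⁻¹ • w) (Kᗮ.smul_mem _ hw) (by
      rw [norm_smul, norm_inv, norm_norm, inv_mul_cancel₀ hn.ne'])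
    rw [map_smul, map_smul, norm_smul, norm_inv, norm_norm, inv_mul_lt_iff₀ hn] at h1
    linarith
  let e := Submodule.prodEquivOfIsCompl K Kᗮ K.isCompl_orthogonal
  let D : (K × Kᗮ) →ₗ[ℝ] (K × Kᗮ) :=
    LinearMap.prodMap ((4 / 5 : ℝ) • LinearMap.id) ((9 / 5 : ℝ) • LinearMap.id)
  let S : E →ₗ[ℝ] E := (e : (K × Kᗮ) →ₗ[ℝ] E) ∘ₗ D ∘ₗ (e.symm : E →ₗ[ℝ] (K × Kᗮ))
  have hdet : LinearMap.det S = (4 / 5 : ℝ) ^ finrank ℝ K * (9 / 5 : ℝ) ^ finrank ℝ Kᗮ := by
    rw [LinearMap.det_conj, LinearMap.det_prodMap, LinearMap.det_smul, LinearMap.det_smul]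
    simp
  have hfin := K.finrank_add_finrank_orthogonal
  have hgt : 1 < LinearMap.det S := by
    obtain ⟨d, hd⟩ : ∃ d, finrank ℝ Kᗮ = finrank ℝ K + (d + 1) :=
      ⟨finrank ℝ Kᗮ - finrank ℝ K - 1, by omega⟩
    rw [hdet, hd, pow_add, ← mul_assoc, ← mul_pow]
    have h1 : (1 : ℝ) ≤ (4 / 5 * (9 / 5)) ^ finrank ℝ K := one_le_pow₀ (by norm_num)
    have h2 : (1 : ℝ) < (9 / 5) ^ (d + 1) := one_lt_pow₀ (by norm_num) (by omega)
    nlinarith
  have hmem : ∀ a, ‖B ((T.comp (LinearMap.toContinuousLinearMap S)) a)‖ ≤ ‖a‖ := by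
    intro a
    obtain ⟨⟨u, v⟩, rfl⟩ := e.surjective a
    have h1 : e (u, v) = (u : E) + v := rfl
    have h2 : S (e (u, v)) = (4 / 5 : ℝ) • (u : E) + (9 / 5 : ℝ) • (v : E) := by
      simp only [S, LinearMap.comp_apply, LinearEquiv.coe_coe, LinearEquiv.symm_apply_apply]
      rfl
    have h3 : ‖(u : E) + v‖ ^ 2 = ‖(u : E)‖ ^ 2 + ‖(v : E)‖ ^ 2 := by
      rw [norm_add_sq_real, Submodule.inner_right_of_mem_orthogonal u.2 v.2]; ring
    simp only [ContinuousLinearMap.comp_apply, LinearMap.coe_toContinuousLinearMap']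
    rw [h2, h1, map_add, map_add, map_smul, map_smul, map_smul, map_smul]
    have h4 := norm_add_le ((4 / 5 : ℝ) • B (T u)) ((9 / 5 : ℝ) • B (T v))
    rw [norm_smul, norm_smul, Real.norm_eq_abs, Real.norm_eq_abs, abs_of_pos (by norm_num),
      abs_of_pos (by norm_num)] at h4
    have h5 := hT u
    have h6 := hs v v.2
    have h7 : 4 / 5 * ‖(u : E)‖ + 3 / 5 * ‖(v : E)‖ ≤ ‖(u : E) + v‖ := by
      refine abs_le_of_sq_le_sq' ?_ (norm_nonneg _) |>.2
      rw [h3]
      nlinarith [sq_nonneg (3 * ‖(u : E)‖ - 4 * ‖(v : E)‖)]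
    linarith
  have h8 := hmax _ hmem
  have h9 : (T.comp (LinearMap.toContinuousLinearMap S)).det = T.det * LinearMap.det S := by
    simp only [ContinuousLinearMap.det]
    rw [← LinearMap.det_comp]
    rfl
  rw [h9, abs_mul, abs_of_pos (by linarith : 0 < LinearMap.det S)] at h8
  have : 0 < |T.det| := abs_pos.2 h0
  nlinarith

/-- Dvoretzky–Rogers. -/
theorem dvoretzky_rogers (hX : ¬ FiniteDimensional ℝ X) (m : ℕ) :
    ∃ A : EuclideanSpace ℝ (Fin m) →L[ℝ] X, (∀ a, ‖A a‖ ≤ ‖a‖) ∧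
      ∀ i, 1 / 3 ≤ ‖A (EuclideanSpace.single i 1)‖ := by
  have hr : ((2 * m : ℕ) : Cardinal) ≤ Module.rank ℝ X := by
    have : Cardinal.aleph0 ≤ Module.rank ℝ X := by
      rw [← not_lt, Module.rank_lt_aleph0_iff]; exact hX
    exact (Cardinal.natCast_lt_aleph0).le.trans this
  obtain ⟨v, hv⟩ := Module.le_rank_iff.1 hr
  let E := EuclideanSpace ℝ (Fin (2 * m))
  let b := (EuclideanSpace.basisFun (Fin (2 * m)) ℝ).toBasis
  let B0 : E →ₗ[ℝ] X := b.constr ℝ v
  have hB0 : LinearMap.ker B0 = ⊥ := by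
    rw [LinearMap.ker_eq_bot']
    intro a ha
    rw [Basis.constr_apply_fintype] at ha
    have h1 := Fintype.linearIndependent_iff.1 hv _ ha
    exact b.equivFun.injective (by ext i; simpa using h1 i)
  obtain ⟨T, hT, h0, hmax⟩ := exists_max_det (LinearMap.toContinuousLinearMap B0) hB0
  set B := LinearMap.toContinuousLinearMap B0
  have ind : ∀ j, j ≤ m → ∃ w : Fin j → E, Orthonormal ℝ w ∧ ∀ i, 1 / 3 ≤ ‖B (T (w i))‖ := by
    intro j
    induction j with
    | zero => exact fun _ => ⟨Fin.elim0, orthonormal_iff_ite.2 fun i => i.elim0, fun i => i.elim0⟩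
    | succ j ih =>
      intro hj
      obtain ⟨w, hw, hw'⟩ := ih (by omega)
      have hk : finrank ℝ (Submodule.span ℝ (Set.range w)) ≤ j := by
        simpa [Set.finrank] using finrank_range_le_card (R := ℝ) w
      obtain ⟨u, hu, hu1, hu2⟩ := exists_big_orth B T hT h0 hmax (Submodule.span ℝ (Set.range w))
        (by have : finrank ℝ E = 2 * m := by simp [E]
            omega)
      have ho : ∀ i, ⟪w i, u⟫ = 0 := fun i =>
        Submodule.inner_right_of_mem_orthogonal (Submodule.subset_span (Set.mem_range_self i)) hu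
      refine ⟨Fin.cons u w, ⟨fun i => ?_, fun i k hik => ?_⟩, fun i => ?_⟩
      · refine Fin.cases ?_ (fun i => ?_) i
        · simpa using hu1
        · simpa using hw.1 i
      · induction i using Fin.cases with
        | zero =>
          induction k using Fin.cases with
          | zero => exact absurd rfl hik
          | succ k => simpa [real_inner_comm] using ho k
        | succ i =>
          induction k using Fin.cases with
          | zero => simpa using ho i
          | succ k => simpa using hw.2 (fun h => hik (congrArg Fin.succ h))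
      · refine Fin.cases ?_ (fun i => ?_) i
        · simpa using hu2
        · simpa using hw' i
  obtain ⟨w, hw, hw'⟩ := ind m le_rfl
  let c := EuclideanSpace.basisFun (Fin m) ℝ
  let J0 : EuclideanSpace ℝ (Fin m) →ₗ[ℝ] E := c.toBasis.constr ℝ w
  have hJ : ∀ i, J0 (c.toBasis i) = w i := fun i => c.toBasis.constr_basis ℝ w i
  let J : EuclideanSpace ℝ (Fin m) →ₗᵢ[ℝ] E := J0.isometryOfOrthonormal (v := c.toBasis)
    (by simp) (by
      have : J0 ∘ c.toBasis = w := funext hJ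
      rw [this]; exact hw)
  refine ⟨B.comp (T.comp J.toContinuousLinearMap), fun a => ?_, fun i => ?_⟩
  · have := hT (J a)
    rw [J.norm_map] at this
    exact this
  · have h1 : J (EuclideanSpace.single i 1) = w i := by
      have h2 : EuclideanSpace.single i (1 : ℝ) = c.toBasis i := by simp [c]
      rw [h2]; exact hJ i
    have := hw' i
    rw [← h1] at this
    exact this

end Pool.Agent.Lib.MP_ab3705_an
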