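import Mathlib

/-!
Gaussian `L¹` concentration for the functions `a ↦ ‖x + A a‖`, by a discrete form of the
Maurey–Pisier rotation argument.
-/

set_option autoImplicit false

open MeasureTheory ProbabilityTheory

noncomputable section

namespace Pool.Agent.Lib.MP_ab3705_an

variable {X : Type*} [NormedAddCommGroup X] [NormedSpace ℝ X]
variable {E : Type*} [NormedAddCommGroup E] [InnerProductSpace ℝ E] [FiniteDimensional ℝ E]
  [MeasurableSpace E] [BorelSpace E]

theorem integrable_norm_gauss : Integrable (fun a : E => ‖a‖) (stdGaussian E) :=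
  (IsGaussian.integrable_id (μ := stdGaussian E)).norm

theorem integrable_norm_add (A : E →L[ℝ] X) (x : X) :
    Integrable (fun a => ‖x + A a‖) (stdGaussian E) := by
  refine Integrable.mono' ((integrable_const ‖x‖).add (integrable_norm_gauss.const_mul ‖A‖))
    (Continuous.aestronglyMeasurable (by fun_prop)) (ae_of_all _ fun a => ?_)
  rw [norm_norm]
  exact (norm_add_le _ _).trans (by have := A.le_opNorm a; simpa using this)

theorem integral_abs_dual_le (ψ : StrongDual ℝ E) {L : ℝ} (hL : 0 < L) (h : ‖ψ‖ ≤ L) :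
    ∫ b, |ψ b| ∂stdGaussian E ≤ L := by
  have h2 : MemLp ψ 2 (stdGaussian E) := IsGaussian.memLp_dual _ ψ 2 (by simp)
  have hv := variance_dual_stdGaussian ψ
  rw [variance_of_integral_eq_zero h2.aemeasurable (integral_strongDual_stdGaussian ψ)] at hv
  have hi : Integrable (fun b => ψ b ^ 2) (stdGaussian E) := h2.integrable_sq
  have h3 : ∫ b, |ψ b| ∂stdGaussian E ≤ ∫ b, ((2 * L)⁻¹ * ψ b ^ 2 + L / 2) ∂stdGaussian E := by
    refine integral_mono (h2.integrable (by simp)).abs ((hi.const_mul _).add (integrable_const _))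
      fun b => ?_
    have h4 : (2 * L)⁻¹ * ψ b ^ 2 + L / 2 = (|ψ b| ^ 2 + L ^ 2) / (2 * L) := by
      rw [sq_abs]; field_simp
    simp only [h4]
    rw [le_div_iff₀ (by positivity)]
    nlinarith [sq_nonneg (|ψ b| - L)]
  rw [integral_add (hi.const_mul _) (integrable_const _), integral_const_mul, hv] at h3
  simp only [integral_const, probReal_univ, one_smul] at h3
  have h5 : (2 * L)⁻¹ * ‖ψ‖ ^ 2 ≤ L / 2 := by
    rw [inv_mul_le_iff₀ (by positivity)]
    nlinarith [norm_nonneg ψ]
  linarith

theorem rot_pres (θ : ℝ) : MeasurePreserving (ContinuousLinearMap.rotation (E := E) θ)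
    ((stdGaussian E).prod (stdGaussian E)) ((stdGaussian E).prod (stdGaussian E)) :=
  ⟨(ContinuousLinearMap.rotation θ).continuous.measurable,
    IsGaussian.map_rotation_eq_self (by simp) θ⟩

/-- The mean displacement of `a ↦ ‖x + A a‖` under the rotation of angle `θ`. -/
def disp (A : E →L[ℝ] X) (x : X) (θ : ℝ) : ℝ :=
  ∫ p : E × E, |‖x + A p.1‖ - ‖x + A (ContinuousLinearMap.rotation θ p).1‖|
    ∂(stdGaussian E).prod (stdGaussian E)

theorem int_fst (A : E →L[ℝ] X) (x : X) :
    Integrable (fun p : E × E => ‖x + A p.1‖) ((stdGaussian E).prod (stdGaussian E)) :=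
  (integrable_norm_add A x).comp_fst _

theorem int_rot (A : E →L[ℝ] X) (x : X) (θ : ℝ) :
    Integrable (fun p : E × E => ‖x + A (ContinuousLinearMap.rotation θ p).1‖)
      ((stdGaussian E).prod (stdGaussian E)) :=
  (rot_pres θ).integrable_comp_of_integrable (int_fst A x)

theorem integral_rot (θ : ℝ) (g : E × E → ℝ) (hg : Continuous g) :
    ∫ p, g (ContinuousLinearMap.rotation θ p) ∂(stdGaussian E).prod (stdGaussian E)
      = ∫ p, g p ∂(stdGaussian E).prod (stdGaussian E) := by
  conv_rhs => rw [← (rot_pres (E := E) θ).map_eq]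
  rw [integral_map (rot_pres θ).aemeasurable hg.aestronglyMeasurable]

theorem disp_add (A : E →L[ℝ] X) (x : X) (θ δ : ℝ) :
    disp A x (θ + δ) ≤ disp A x θ + disp A x δ := by
  have h1 : disp A x δ = ∫ p : E × E, |‖x + A (ContinuousLinearMap.rotation θ p).1‖
      - ‖x + A (ContinuousLinearMap.rotation (θ + δ) p).1‖|
      ∂(stdGaussian E).prod (stdGaussian E) := by
    rw [disp, ← integral_rot θ _ (by fun_prop)]
    refine integral_congr_ae (ae_of_all _ fun p => ?_)
    have : (ContinuousLinearMap.rotation δ (ContinuousLinearMap.rotation θ p)).1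
        = (ContinuousLinearMap.rotation (θ + δ) p).1 := by
      simp only [ContinuousLinearMap.rotation_apply, Real.cos_add, Real.sin_add]
      module
    simp only [this]
  have i1 : Integrable (fun p : E × E => |‖x + A p.1‖
      - ‖x + A (ContinuousLinearMap.rotation θ p).1‖|) ((stdGaussian E).prod (stdGaussian E)) :=
    ((int_fst A x).sub (int_rot A x θ)).abs
  have i2 : Integrable (fun p : E × E => |‖x + A (ContinuousLinearMap.rotation θ p).1‖
      - ‖x + A (ContinuousLinearMap.rotation (θ + δ) p).1‖|)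
      ((stdGaussian E).prod (stdGaussian E)) := ((int_rot A x θ).sub (int_rot A x _)).abs
  rw [h1, disp, disp, ← integral_add i1 i2]
  refine integral_mono ((int_fst A x).sub (int_rot A x _)).abs (i1.add i2) fun p => ?_
  exact abs_sub_le _ _ _

theorem disp_nsmul (A : E →L[ℝ] X) (x : X) (δ : ℝ) (k : ℕ) :
    disp A x (k * δ) ≤ k * disp A x δ := by
  induction k with
  | zero => simp [disp, ContinuousLinearMap.rotation_apply]
  | succ k ih =>
    have := disp_add A x (k * δ) δ
    push_cast
    rw [add_mul, one_mul]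
    linarith

theorem disp_le (A : E →L[ℝ] X) (x : X) {L : ℝ} (hL : 0 < L) (hA : ‖A‖ ≤ L) (δ : ℝ) :
    disp A x δ ≤ δ ^ 2 * L * ∫ a, ‖a‖ ∂stdGaussian E + 2 * |δ| * L := by
  set D : E × E → ℝ := fun p => ‖x + A p.1‖ - ‖x + A (ContinuousLinearMap.rotation δ p).1‖ with hD
  have hDi : Integrable D ((stdGaussian E).prod (stdGaussian E)) :=
    (int_fst A x).sub (int_rot A x δ)
  have hD0 : ∫ p, D p ∂(stdGaussian E).prod (stdGaussian E) = 0 := by
    rw [integral_sub (int_fst A x) (int_rot A x δ),
      integral_rot δ (fun p : E × E => ‖x + A p.1‖) (by fun_prop), sub_self]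
  have hPi : Integrable (fun p => max (D p) 0) ((stdGaussian E).prod (stdGaussian E)) :=
    hDi.pos_part
  have h1 : disp A x δ = 2 * ∫ p, max (D p) 0 ∂(stdGaussian E).prod (stdGaussian E) := by
    have : disp A x δ = ∫ p, (2 * max (D p) 0 - D p) ∂(stdGaussian E).prod (stdGaussian E) := by
      refine integral_congr_ae (ae_of_all _ fun p => ?_)
      change |D p| = 2 * max (D p) 0 - D p
      rcases le_total 0 (D p) with h | h
      · rw [abs_of_nonneg h, max_eq_left h]; ring
      · rw [abs_of_nonpos h, max_eq_right h]; ring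
    rw [this, integral_sub (hPi.const_mul 2) hDi, hD0, integral_const_mul, sub_zero]
  have h2 : ∀ a, ∫ b, max (D (a, b)) 0 ∂stdGaussian E ≤ δ ^ 2 / 2 * L * ‖a‖ + |δ| * L := by
    intro a
    obtain ⟨φ, hφ, hφx⟩ := exists_dual_vector'' ℝ (x + A a)
    let ψ : StrongDual ℝ E := φ.comp A
    have hψ : ‖ψ‖ ≤ L := (φ.opNorm_comp_le A).trans (by nlinarith [norm_nonneg A, norm_nonneg φ])
    have hψi : Integrable (fun b => |ψ b|) (stdGaussian E) :=
      (IsGaussian.integrable_dual _ ψ).abs
    have hc0 : 0 ≤ 1 - Real.cos δ := by linarith [Real.cos_le_one δ]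
    have hc1 : 1 - Real.cos δ ≤ δ ^ 2 / 2 := by linarith [Real.one_sub_sq_div_two_le_cos (x := δ)]
    have h3 : ∀ b, max (D (a, b)) 0 ≤ δ ^ 2 / 2 * L * ‖a‖ + |δ| * |ψ b| := by
      intro b
      refine max_le ?_ (by positivity)
      have h4 : φ (x + A (Real.cos δ • a + Real.sin δ • b))
          ≤ ‖x + A (Real.cos δ • a + Real.sin δ • b)‖ :=
        (le_abs_self _).trans ((φ.le_opNorm _).trans (mul_le_of_le_one_left (norm_nonneg _) hφ))
      have h5 : φ (x + A (Real.cos δ • a + Real.sin δ • b))
          = φ x + Real.cos δ * ψ a + Real.sin δ * ψ b := by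
        simp [ψ, add_assoc]
      have h6 : ‖x + A a‖ = φ x + ψ a := by
        have : φ (x + A a) = ‖x + A a‖ := by simpa using hφx
        rw [← this]; simp [ψ]
      have h7 : ψ a ≤ L * ‖a‖ :=
        (le_abs_self _).trans ((ψ.le_opNorm a).trans (by gcongr))
      have h8 : -(Real.sin δ * ψ b) ≤ |δ| * |ψ b| := by
        refine (neg_le_abs _).trans ?_
        rw [abs_mul]
        exact mul_le_mul_of_nonneg_right Real.abs_sin_le_abs (abs_nonneg _)
      have h9 : (1 - Real.cos δ) * ψ a ≤ δ ^ 2 / 2 * (L * ‖a‖) :=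
        (mul_le_mul_of_nonneg_left h7 hc0).trans (by gcongr)
      change ‖x + A a‖ - ‖x + A (Real.cos δ • a + Real.sin δ • b)‖ ≤ _
      nlinarith
    refine (integral_mono_of_nonneg (ae_of_all _ fun b => le_max_right _ _)
      ((integrable_const _).add (hψi.const_mul _)) (ae_of_all _ h3)).trans ?_
    rw [integral_add' (integrable_const _) (hψi.const_mul _)]
    simp only [integral_const, probReal_univ, one_smul]
    rw [integral_const_mul]
    have := integral_abs_dual_le ψ hL hψ
    gcongr
  rw [h1, integral_prod _ hPi]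
  have h10 := integral_mono hPi.integral_prod_left
    ((integrable_norm_gauss.const_mul (δ ^ 2 / 2 * L)).add (integrable_const (|δ| * L))) h2
  rw [integral_add' (integrable_norm_gauss.const_mul _) (integrable_const _),
    integral_const_mul] at h10
  simp only [integral_const, probReal_univ, one_smul] at h10
  linarith

/-- `L¹` concentration. -/
theorem conc (A : E →L[ℝ] X) (x : X) {L : ℝ} (hL : 0 < L) (hA : ‖A‖ ≤ L) :
    ∫ a, |‖x + A a‖ - ∫ b, ‖x + A b‖ ∂stdGaussian E| ∂stdGaussian E ≤ 5 * L := by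
  set c := ∫ a, ‖a‖ ∂stdGaussian E with hc
  have hc0 : 0 ≤ c := integral_nonneg fun a => norm_nonneg a
  obtain ⟨m, hm⟩ := exists_nat_gt (4 * c)
  have hm0 : (0 : ℝ) < m := by linarith
  have h1 : disp A x (Real.pi / 2) ≤ 5 * L := by
    have h2 := disp_nsmul A x (Real.pi / 2 / m) m
    rw [mul_div_cancel₀ _ hm0.ne'] at h2
    have h3 := disp_le A x hL hA (Real.pi / 2 / m)
    have hp := Real.pi_pos
    have hp4 := Real.pi_le_four
    rw [abs_of_pos (by positivity), ← hc] at h3
    have h4 : m * ((Real.pi / 2 / m) ^ 2 * L * c + 2 * (Real.pi / 2 / m) * L)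
        = (Real.pi ^ 2 / 4 * c / m + Real.pi) * L := by field_simp; ring
    have h5 : Real.pi ^ 2 / 4 * c / m ≤ 1 := by
      rw [div_le_one hm0]
      have : Real.pi ^ 2 / 4 ≤ 4 := by nlinarith
      nlinarith
    have h6 := mul_le_mul_of_nonneg_left h3 hm0.le
    rw [h4] at h6
    nlinarith
  have hi : Integrable (fun p : E × E => |‖x + A p.1‖ - ‖x + A p.2‖|)
      ((stdGaussian E).prod (stdGaussian E)) :=
    ((int_fst A x).sub ((integrable_norm_add A x).comp_snd _)).abs
  have h7 : disp A x (Real.pi / 2) = ∫ a, ∫ b, |‖x + A a‖ - ‖x + A b‖| ∂stdGaussian E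
      ∂stdGaussian E := by
    rw [← integral_prod _ hi]
    simp [disp, ContinuousLinearMap.rotation_apply]
  refine le_trans ?_ h1
  rw [h7]
  refine integral_mono ((integrable_norm_add A x).sub (integrable_const _)).abs
    hi.integral_prod_left fun a => ?_
  have h8 : ‖x + A a‖ - ∫ b, ‖x + A b‖ ∂stdGaussian E
      = ∫ b, (‖x + A a‖ - ‖x + A b‖) ∂stdGaussian E := by
    rw [integral_sub (integrable_const _) (integrable_norm_add A x)]
    simp
  simp only [h8]
  exact abs_integral_le_integral_abs

end Pool.Agent.Lib.MP_ab3705_an
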