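import Pool.Agent.Lib.MP_ab3705_an.DvA
import Pool.Agent.Lib.MP_ab3705_an.DvB

/-!
In an infinite-dimensional normed space there are contractions from Euclidean spaces with
arbitrarily large Gaussian mean norm.
-/

set_option autoImplicit false

open MeasureTheory ProbabilityTheory

noncomputable section

namespace Pool.Agent.Lib.MP_ab3705_an

variable {X : Type*} [NormedAddCommGroup X] [NormedSpace ℝ X]

/-- Change the sign of all coordinates except the `j`-th. -/
def flip {m : ℕ} (j : Fin m) : EuclideanSpace ℝ (Fin m) ≃ₗᵢ[ℝ] EuclideanSpace ℝ (Fin m) :=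
  LinearIsometryEquiv.piLpCongrRight 2 fun i =>
    if i = j then LinearIsometryEquiv.refl ℝ ℝ else LinearIsometryEquiv.neg ℝ

theorem flip_apply {m : ℕ} (j i : Fin m) (a : EuclideanSpace ℝ (Fin m)) :
    flip j a i = if i = j then a i else - a i := by
  simp only [flip, LinearIsometryEquiv.piLpCongrRight_apply]
  split_ifs <;> simp

theorem abs_flip {m : ℕ} (j i : Fin m) (a : EuclideanSpace ℝ (Fin m)) : |flip j a i| = |a i| := by
  rw [flip_apply]; split_ifs <;> simp

theorem add_flip {m : ℕ} (j : Fin m) (a : EuclideanSpace ℝ (Fin m)) :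
    a + flip j a = (2 * a j) • EuclideanSpace.single j (1 : ℝ) := by
  ext i
  simp only [PiLp.add_apply, flip_apply, PiLp.smul_apply, smul_eq_mul]
  by_cases h : i = j
  · subst h; simp [two_mul]
  · simp [h]

/-- `j` is the first coordinate of size at least `t`. -/
def first {m : ℕ} (t : ℝ) (j : Fin m) : Set (EuclideanSpace ℝ (Fin m)) :=
  {a | t ≤ |a j|} ∩ ⋂ i ∈ {i | i < j}, {a | |a i| < t}

theorem mem_first {m : ℕ} {t : ℝ} {j : Fin m} {a : EuclideanSpace ℝ (Fin m)} :
    a ∈ first t j ↔ t ≤ |a j| ∧ ∀ i < j, |a i| < t := by simp [first]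

theorem meas_first {m : ℕ} (t : ℝ) (j : Fin m) : MeasurableSet (first t j) :=
  (measurableSet_le measurable_const (by fun_prop)).inter
    (MeasurableSet.biInter (Set.to_countable _) fun i _ =>
      measurableSet_lt (by fun_prop) measurable_const)

theorem setInt_first {m : ℕ} (A : EuclideanSpace ℝ (Fin m) →L[ℝ] X) {t : ℝ} (ht : 0 ≤ t)
    (j : Fin m) (hj : 1 / 3 ≤ ‖A (EuclideanSpace.single j 1)‖) :
    t / 3 * (stdGaussian (EuclideanSpace ℝ (Fin m))).real (first t j)
      ≤ ∫ a in first t j, ‖A a‖ ∂stdGaussian (EuclideanSpace ℝ (Fin m)) := by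
  set γ := stdGaussian (EuclideanSpace ℝ (Fin m)) with hγ
  have hp : MeasurePreserving (flip j) γ γ :=
    ⟨(flip j).continuous.measurable, stdGaussian_map (flip j)⟩
  have hi : Integrable (fun a => ‖A a‖) γ := by simpa using integrable_norm_add A 0
  have hi' : Integrable (fun a => ‖A (flip j a)‖) γ := hp.integrable_comp_of_integrable hi
  have hpre : flip j ⁻¹' first t j = first t j := by
    ext a; simp only [Set.mem_preimage, mem_first, abs_flip]
  have h1 : ∫ a in first t j, ‖A (flip j a)‖ ∂γ = ∫ a in first t j, ‖A a‖ ∂γ := by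
    have := hp.setIntegral_preimage_emb (flip j).toHomeomorph.measurableEmbedding
      (fun a => ‖A a‖) (first t j)
    rwa [hpre] at this
  have h2 : ∫ a in first t j, (2 * (t / 3)) ∂γ
      ≤ ∫ a in first t j, (‖A a‖ + ‖A (flip j a)‖) ∂γ := by
    refine setIntegral_mono_on (integrable_const _).integrableOn (hi.add hi').integrableOn
      (meas_first t j) fun a ha => ?_
    have h3 := norm_add_le (A a) (A (flip j a))
    rw [← map_add, add_flip, map_smul, norm_smul, Real.norm_eq_abs, abs_mul, abs_two] at h3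
    have h4 := (mem_first.1 ha).1
    nlinarith
  rw [integral_add hi.integrableOn hi'.integrableOn, h1, setIntegral_const, smul_eq_mul] at h2
  linarith

theorem measure_small (m : ℕ) (t : ℝ) :
    (stdGaussian (EuclideanSpace ℝ (Fin m))).real {a | ∀ i, |a i| < t}
      = (gaussianReal 0 1).real (Set.Ioo (-t) t) ^ m := by
  have hm : MeasurableSet {a : EuclideanSpace ℝ (Fin m) | ∀ i, |a i| < t} := by
    rw [Set.ofPred_forall]
    exact MeasurableSet.iInter fun i => measurableSet_lt (by fun_prop) measurable_const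
  rw [← map_pi_eq_stdGaussian, measureReal_def, Measure.map_apply (by fun_prop) hm]
  have : (WithLp.toLp 2 : (Fin m → ℝ) → EuclideanSpace ℝ (Fin m)) ⁻¹' {a | ∀ i, |a i| < t}
      = Set.univ.pi fun _ => Set.Ioo (-t) t := by
    ext a; simp [abs_lt]
  rw [this, Measure.pi_pi]
  simp [measureReal_def]

theorem gauss_Ioo_lt (t : ℝ) : (gaussianReal 0 1).real (Set.Ioo (-t) t) < 1 := by
  have h1 : gaussianReal 0 1 (Set.Ioo (-t) t)ᶜ ≠ 0 := by
    intro h
    have h2 := gaussianReal_absolutelyContinuous' 0 one_ne_zero h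
    have h3 : Set.Ici t ⊆ (Set.Ioo (-t) t)ᶜ := fun x hx hx' => absurd hx'.2 (not_lt.2 hx)
    have := measure_mono_null h3 h2
    simp at this
  have h4 := measureReal_add_measureReal_compl (μ := gaussianReal 0 1)
    (measurableSet_Ioo (a := -t) (b := t))
  have h5 : 0 < (gaussianReal 0 1).real (Set.Ioo (-t) t)ᶜ :=
    ENNReal.toReal_pos h1 (measure_ne_top _ _)
  rw [probReal_univ] at h4
  linarith

theorem exists_big_mean (hX : ¬ FiniteDimensional ℝ X) (M : ℝ) :
    ∃ (m : ℕ) (A : EuclideanSpace ℝ (Fin m) →L[ℝ] X), ‖A‖ ≤ 1 ∧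
      M ≤ ∫ a, ‖A a‖ ∂stdGaussian (EuclideanSpace ℝ (Fin m)) := by
  set t := 6 * |M| with ht
  have ht0 : 0 ≤ t := by positivity
  obtain ⟨m, hm⟩ := exists_pow_lt_of_lt_one (by norm_num : (0 : ℝ) < 1 / 2) (gauss_Ioo_lt t)
  obtain ⟨A, hA, hA'⟩ := dvoretzky_rogers hX m
  refine ⟨m, A, A.opNorm_le_bound zero_le_one fun a => by simpa using hA a, ?_⟩
  set γ := stdGaussian (EuclideanSpace ℝ (Fin m)) with hγ
  have hi : Integrable (fun a => ‖A a‖) γ := by simpa using integrable_norm_add A 0
  have hd : Pairwise (Function.onFun Disjoint fun j : Fin m => first t j) := by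
    intro j k hjk
    rw [Function.onFun, Set.disjoint_left]
    intro a h1 h2
    rw [mem_first] at h1 h2
    rcases lt_or_gt_of_ne hjk with h | h
    · exact absurd (h2.2 j h) (not_lt.2 h1.1)
    · exact absurd (h1.2 k h) (not_lt.2 h2.1)
  have hU : (⋃ j : Fin m, first t j) = {a | ∀ i, |a i| < t}ᶜ := by
    ext a
    simp only [Set.mem_iUnion, mem_first, Set.mem_compl_iff, Set.mem_ofPred_eq, not_forall, not_lt]
    constructor
    · rintro ⟨j, h, -⟩; exact ⟨j, h⟩
    · intro h
      classical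
      obtain ⟨j, hj, hmin⟩ := (wellFounded_lt (α := Fin m)).has_min {j | t ≤ |a j|} h
      exact ⟨j, hj, fun i hi => not_le.1 fun h' => hmin i h' hi⟩
  have hUm : MeasurableSet (⋃ j : Fin m, first t j) := MeasurableSet.iUnion (meas_first t)
  have h1 : 1 / 2 ≤ γ.real (⋃ j : Fin m, first t j) := by
    have h4 := measureReal_add_measureReal_compl (μ := γ) hUm
    rw [probReal_univ, hU, compl_compl, measure_small, ← hU] at h4
    linarith
  have h2 : γ.real (⋃ j : Fin m, first t j) = ∑ j, γ.real (first t j) :=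
    measureReal_iUnion_fintype hd (meas_first t)
  have h3 : ∫ a in ⋃ j : Fin m, first t j, ‖A a‖ ∂γ = ∑ j, ∫ a in first t j, ‖A a‖ ∂γ :=
    integral_iUnion_fintype (meas_first t) hd fun _ => hi.integrableOn
  have h5 : ∫ a in ⋃ j : Fin m, first t j, ‖A a‖ ∂γ ≤ ∫ a, ‖A a‖ ∂γ :=
    setIntegral_le_integral hi (ae_of_all _ fun a => norm_nonneg _)
  have h6 : t / 3 * ∑ j, γ.real (first t j) ≤ ∑ j, ∫ a in first t j, ‖A a‖ ∂γ := by
    rw [Finset.mul_sum]
    exact Finset.sum_le_sum fun j _ => setInt_first A ht0 j (hA' j)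
  rw [← h2, ← h3] at h6
  have := le_abs_self M
  nlinarith

end Pool.Agent.Lib.MP_ab3705_an
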