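import Pool.Agent.Lib.MP_ab3705_an.Defs

namespace Pool.Agent.Lib.MP_ab3705_an

open Finsupp

section
variable {X : Type*} [AddCommGroup X] [Module ℝ X]

/-- cast of a rational finitely supported sequence -/
noncomputable def rc (v : ℕ →₀ ℚ) : ℕ →₀ ℝ := v.mapRange (fun q : ℚ => (q : ℝ)) (by simp)

theorem comb_eq (x : ℕ → X) (v : ℕ →₀ ℚ) : comb x v = linearCombination ℝ x (rc v) := by
  rw [linearCombination_apply, rc, sum_mapRange_index (by simp)]
  rfl

theorem rc_add (u v : ℕ →₀ ℚ) : rc (u + v) = rc u + rc v := by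
  ext i; simp [rc]

theorem rc_sub (u v : ℕ →₀ ℚ) : rc (u - v) = rc u - rc v := by
  ext i; simp [rc]

theorem rc_smul (q : ℚ) (v : ℕ →₀ ℚ) : rc (q • v) = (q : ℝ) • rc v := by
  ext i; simp [rc]

theorem rc_apply (v : ℕ →₀ ℚ) (i : ℕ) : rc v i = (v i : ℝ) := by simp [rc]

theorem comb_add (x : ℕ → X) (u v : ℕ →₀ ℚ) : comb x (u + v) = comb x u + comb x v := by
  simp [comb_eq, rc_add]

theorem comb_sub (x : ℕ → X) (u v : ℕ →₀ ℚ) : comb x (u - v) = comb x u - comb x v := by
  simp [comb_eq, rc_sub]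

theorem comb_smul (x : ℕ → X) (q : ℚ) (v : ℕ →₀ ℚ) : comb x (q • v) = (q : ℝ) • comb x v := by
  simp [comb_eq, rc_smul]

theorem comb_single (x : ℕ → X) (i : ℕ) (q : ℚ) : comb x (single i q) = (q : ℝ) • x i := by
  simp [comb]

theorem comb_zero (x : ℕ → X) : comb x 0 = 0 := by simp [comb]

theorem comb_map {Y : Type*} [AddCommGroup Y] [Module ℝ Y] (L : X →ₗ[ℝ] Y) (x : ℕ → X)
    (v : ℕ →₀ ℚ) : comb (fun i => L (x i)) v = L (comb x v) := by
  simp [comb, Finsupp.sum, map_sum]

theorem comb_range (x : ℕ → X) (v : ℕ →₀ ℚ) (n : ℕ) (h : ∀ i, n ≤ i → v i = 0) :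
    comb x v = ∑ i ∈ Finset.range n, (v i : ℝ) • x i := by
  unfold comb
  rw [Finsupp.sum_of_support_subset _ (s := Finset.range n)]
  · intro i hi
    rw [Finset.mem_range]
    by_contra hh
    exact (mem_support_iff.1 hi) (h i (not_lt.1 hh))
  · simp

end

theorem exists_bound (v : ℕ →₀ ℚ) : ∃ n, ∀ i, n ≤ i → v i = 0 := by
  refine ⟨v.support.sup id + 1, fun i hi => ?_⟩
  by_contra h
  have := Finset.le_sup (f := id) (mem_support_iff.2 h)
  simp only [id] at this
  omega

variable {X Y : Type*} [NormedAddCommGroup X] [NormedSpace ℝ X] [NormedAddCommGroup Y]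
  [NormedSpace ℝ Y]

/-- A closed condition on real combinations holds once it holds for rational ones. -/
theorem real_of_rat {Z : Type*} [TopologicalSpace Z] [AddCommGroup Z] [Module ℝ Z]
    [ContinuousAdd Z] [ContinuousSMul ℝ Z] (z : ℕ → Z) {A : Set Z} (hA : IsClosed A)
    (h : ∀ v, comb z v ∈ A) (w : ℕ →₀ ℝ) : linearCombination ℝ z w ∈ A := by
  classical
  let s := w.support
  have hd : DenseRange (Pi.map fun (_ : s) (q : ℚ) => (q : ℝ)) :=
    DenseRange.piMap fun _ => Rat.denseRange_cast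
  have hc : Continuous fun t : s → ℝ => ∑ i : s, t i • z i := by fun_prop
  have key : ∀ t : s → ℝ, (∑ i : s, t i • z i) ∈ A := by
    intro t
    refine hd.induction_on (p := fun t => (∑ i : s, t i • z i) ∈ A) t (hA.preimage hc) ?_
    intro a
    have := h (∑ i : s, single (i : ℕ) (a i))
    rw [comb_eq] at this
    have e : rc (∑ i : s, single (i : ℕ) (a i)) = ∑ i : s, single (i : ℕ) ((a i : ℝ)) := by
      ext j
      simp only [rc_apply, Finsupp.coe_finsetSum, Finset.sum_apply, Rat.cast_sum]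
      refine Finset.sum_congr rfl fun i _ => ?_
      simp only [single_apply]
      split_ifs <;> simp
    rw [e, map_sum] at this
    simpa using this
  have := key fun i => w i
  rw [linearCombination_apply, Finsupp.sum, ← Finset.sum_coe_sort]
  exact this

theorem ext_lin [CompleteSpace Y] (x : ℕ → X) (y : ℕ → Y) (C : ℝ) (hx : DenseRange (comb x))
    (h : ∀ v, ‖comb y v‖ ≤ C * ‖comb x v‖) :
    ∃ L : X →L[ℝ] Y, ∀ v, L (comb x v) = comb y v := by
  have hd : DenseRange (linearCombination ℝ x) := by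
    refine hx.mono ?_
    rintro _ ⟨v, rfl⟩
    exact ⟨rc v, (comb_eq x v).symm⟩
  have hn : ∀ w : ℕ →₀ ℝ, ‖linearCombination ℝ y w‖ ≤ C * ‖linearCombination ℝ x w‖ := by
    intro w
    have := real_of_rat (fun i => (x i, y i)) (A := {z : X × Y | ‖z.2‖ ≤ C * ‖z.1‖})
      (isClosed_le (by fun_prop) (by fun_prop)) (fun v => by
        have e1 := comb_map (LinearMap.fst ℝ X Y) (fun i => (x i, y i)) v
        have e2 := comb_map (LinearMap.snd ℝ X Y) (fun i => (x i, y i)) v
        simp only [LinearMap.fst_apply, LinearMap.snd_apply] at e1 e2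
        simp only [Set.mem_ofPred_eq, ← e1, ← e2]
        exact h v) w
    have e1 : (linearCombination ℝ (fun i => (x i, y i)) w).1 = linearCombination ℝ x w := by
      simp [linearCombination_apply, Finsupp.sum, Prod.fst_sum]
    have e2 : (linearCombination ℝ (fun i => (x i, y i)) w).2 = linearCombination ℝ y w := by
      simp [linearCombination_apply, Finsupp.sum, Prod.snd_sum]
    simpa [e1, e2] using this
  refine ⟨(linearCombination ℝ y).extendOfNorm (linearCombination ℝ x), fun v => ?_⟩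
  rw [comb_eq, comb_eq, LinearMap.extendOfNorm_eq hd ⟨C, hn⟩]

end Pool.Agent.Lib.MP_ab3705_an
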