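import Pool.Agent.Lib.MP_ab3705_an.FsC

/-!
Only the Hilbert space has an `F_σ` isometry class.
-/

set_option autoImplicit false

open Filter Topology Module TopologicalSpace

noncomputable section

namespace Pool.Agent.Lib.MP_ab3705_an

variable {Z : Type*} [NormedAddCommGroup Z] [NormedSpace ℝ Z]

theorem dense_li (hZ : ¬ FiniteDimensional ℝ Z) (n : ℕ) :
    Dense {w : ℕ → Z | LinearIndependent ℝ fun i : Fin n => w i} := by
  induction n with
  | zero => simp
  | succ n ih =>
    rw [dense_iff_inter_open] at ih ⊢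
    intro U hU hne
    obtain ⟨w, hwU, hw⟩ := ih U hU hne
    let K := Submodule.span ℝ (Set.range fun i : Fin n => w i)
    have : FiniteDimensional ℝ K := FiniteDimensional.span_of_finite ℝ (Set.finite_range _)
    have ho : IsOpen {z | Function.update w n z ∈ U} :=
      hU.preimage (continuous_const.update n continuous_id)
    obtain ⟨z, hz, hzK⟩ : ∃ z, Function.update w n z ∈ U ∧ z ∉ K := by
      by_contra h
      push Not at h
      have h1 : K = ⊤ := K.eq_top_of_nonempty_interior'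
        ⟨w n, interior_maximal (s := (K : Set Z)) h ho
          (show Function.update w n (w n) ∈ U by simpa using hwU)⟩
      rw [h1] at this
      exact hZ Submodule.topEquiv.finiteDimensional
    refine ⟨_, hz, ?_⟩
    have e : (fun i : Fin (n + 1) => Function.update w n z i)
        = Fin.snoc (α := fun _ => Z) (fun i : Fin n => w i) z := by
      funext i
      refine Fin.lastCases ?_ (fun i => ?_) i
      · simp
      · simp [Function.update_of_ne i.2.ne]
    change LinearIndependent ℝ fun i : Fin (n + 1) => Function.update w n z i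
    rw [e, linearIndependent_finSnoc]
    exact ⟨hw, hzK⟩

omit [NormedSpace ℝ Z] in
theorem dense_hit {V : Set Z} (hV : V.Nonempty) : Dense {w : ℕ → Z | ∃ i, w i ∈ V} := by
  intro w
  obtain ⟨z, hz⟩ := hV
  have h : Tendsto (fun i : ℕ => Function.update w i z) atTop (𝓝 w) := by
    refine tendsto_pi_nhds.2 fun j => tendsto_const_nhds.congr' ?_
    filter_upwards [eventually_gt_atTop j] with i hi
    rw [Function.update_of_ne hi.ne]
  exact mem_closure_of_tendsto h (Eventually.of_forall fun i => ⟨i, by simpa using hz⟩)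

theorem mu_mem_Bind {w : ℕ → Z} (hw : ∀ n, LinearIndependent ℝ fun i : Fin n => w i) :
    mu w ∈ Bind := by
  refine ⟨fun v => norm_nonneg _, fun q v => ?_, fun u v => ?_, fun n => ?_⟩
  · rw [mu, mu, comb_smul, norm_smul, Real.norm_eq_abs]
  · rw [mu, mu, mu, comb_add]; exact norm_add_le _ _
  · let T : (Fin n → ℝ) →ₗ[ℝ] Z := Fintype.linearCombination ℝ fun i : Fin n => w i
    have hT : LinearMap.ker T = ⊥ := by
      rw [LinearMap.ker_eq_bot']
      intro a ha
      funext i
      exact Fintype.linearIndependent_iff.1 (hw n) a ha i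
    obtain ⟨C, hC0, hC⟩ := T.exists_antilipschitzWith hT
    have hC1 : (0 : ℝ) < C := hC0
    refine ⟨(C : ℝ)⁻¹, by positivity, fun v hv i => ?_⟩
    rcases le_or_gt n i with hi | hi
    · rw [hv i hi]; simp [mu]
    have h1 := hC.le_mul_dist (fun j : Fin n => (v j : ℝ)) 0
    have h2 : T (fun j : Fin n => (v j : ℝ)) = comb w v := by
      rw [comb_range w v n hv, Finset.sum_range]; rfl
    rw [dist_zero_right, map_zero, dist_zero_right, h2] at h1
    have h3 := norm_le_pi_norm (fun j : Fin n => (v j : ℝ)) ⟨i, hi⟩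
    rw [inv_mul_le_iff₀ hC1]
    exact h3.trans h1

theorem generic_residual [SeparableSpace Z] (hZ : ¬ FiniteDimensional ℝ Z) :
    {w : ℕ → Z | DenseRange (comb w) ∧ mu w ∈ Bind} ∈ residual (ℕ → Z) := by
  have h1 : ∀ᶠ w in residual (ℕ → Z), ∀ n, LinearIndependent ℝ fun i : Fin n => w i := by
    refine eventually_countable_forall.2 fun n => residual_of_dense_open ?_ (dense_li hZ n)
    exact isOpen_setOfPred_linearIndependent.preimage
      (f := fun (w : ℕ → Z) (i : Fin n) => w i) (by fun_prop)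
  have : SecondCountableTopology Z := UniformSpace.secondCountable_of_separable Z
  have h2 : ∀ᶠ w in residual (ℕ → Z), ∀ V ∈ countableBasis Z, ∃ i, w i ∈ V := by
    refine (eventually_countable_ball (countable_countableBasis Z)).2 fun V hV =>
      residual_of_dense_open ?_ (dense_hit (nonempty_of_mem_countableBasis hV))
    rw [Set.ofPred_exists]
    exact isOpen_iUnion fun i => (isOpen_of_mem_countableBasis hV).preimage (continuous_apply i)
  filter_upwards [h1, h2] with w hw1 hw2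
  refine ⟨?_, mu_mem_Bind hw1⟩
  refine (isBasis_countableBasis Z).dense_iff.2 fun V hV _ => ?_
  obtain ⟨i, hi⟩ := hw2 V hV
  exact ⟨w i, hi, Finsupp.single i 1, by simp [comb_single]⟩

theorem continuous_mu : Continuous (mu : (ℕ → Z) → (ℕ →₀ ℚ) → ℝ) := by
  refine continuous_pi fun v => ?_
  simp only [mu, comb, Finsupp.sum]
  fun_prop

variable {X : Type*} [NormedAddCommGroup X] [NormedSpace ℝ X] [CompleteSpace X]

theorem rigid_of {F : Set ((ℕ →₀ ℚ) → ℝ)} (hF : ∀ μ ∈ Bind, μ ∈ F → μ ∈ cls X) (n : ℕ) :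
    Rigid F n X := by
  intro Z _ _ _ _ hZ u d hd hg
  have ho : IsOpen {w : ℕ → Z | ∀ i ∈ Set.Iio n, ‖w i - u i‖ < d} := by
    have e : {w : ℕ → Z | ∀ i ∈ Set.Iio n, ‖w i - u i‖ < d}
        = ⋂ i ∈ Set.Iio n, {w : ℕ → Z | ‖w i - u i‖ < d} := by ext w; simp
    rw [e]
    exact (Set.finite_Iio n).isOpen_biInter fun i _ => isOpen_lt (by fun_prop) continuous_const
  obtain ⟨w, hw, hw1, hw2⟩ := (dense_of_mem_residual (generic_residual hZ)).inter_open_nonempty _
    ho ⟨u, fun i _ => by simpa using hd⟩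
  obtain ⟨y, hy, hyw⟩ := hF _ hw2 (hg w hw)
  obtain ⟨L, hL⟩ := ext_lin w y 1 hw1 fun v => by rw [one_mul, ← hyw v]; exact le_rfl
  have hn : ∀ z, ‖L z‖ = ‖z‖ := fun z =>
    hw1.induction_on (p := fun z => ‖L z‖ = ‖z‖) z (isClosed_eq (by fun_prop) (by fun_prop))
      fun v => by rw [hL, ← hyw v]; rfl
  let J : Z →ₗᵢ[ℝ] X := ⟨L, hn⟩
  refine ⟨LinearIsometryEquiv.ofSurjective J fun a => ?_⟩
  have hc : IsClosed (Set.range J) := J.isometry.isClosedEmbedding.isClosed_range
  exact hy.induction_on (p := fun a => a ∈ Set.range J) a hc fun v => ⟨comb w v, hL v⟩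

theorem exists_good [SeparableSpace X] (hX : ¬ FiniteDimensional ℝ X)
    {F : ℕ → Set ((ℕ →₀ ℚ) → ℝ)} (hF : ∀ k, IsClosed (F k))
    (h : ∀ μ ∈ Bind, μ ∈ cls X → ∃ k, μ ∈ F k) :
    ∃ (k n : ℕ) (x : ℕ → X) (ε : ℝ), 0 < ε ∧ Good (F k) n x ε := by
  obtain ⟨D, hD, hG, hd⟩ := mem_residual.1 (generic_residual hX)
  have h1 := hG.dense_iUnion_interior_of_closed hd (f := fun k => mu ⁻¹' F k)
    (fun k => (hF k).preimage continuous_mu) fun w hw => by
      obtain ⟨k, hk⟩ := h _ (hD hw).2 ⟨w, (hD hw).1, fun _ => rfl⟩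
      exact Set.mem_iUnion.2 ⟨k, hk⟩
  obtain ⟨x, hx⟩ := h1.nonempty
  obtain ⟨k, hk⟩ := Set.mem_iUnion.1 hx
  rw [mem_interior_iff_mem_nhds, nhds_pi, Filter.mem_pi] at hk
  obtain ⟨I, hI, s, hs, hst⟩ := hk
  have hb := fun v => Metric.mem_nhds_iff.1 (hs v)
  choose r hr hrs using hb
  obtain ⟨ε, hε, hεr⟩ : ∃ ε > 0, ∀ i ∈ I, ε ≤ r i := by
    have : ∀ᶠ η in 𝓝[>] (0 : ℝ), ∀ v ∈ I, η ≤ r v :=
      (eventually_all_finite hI).2 fun v _ => nhdsWithin_le_nhds (ge_mem_nhds (hr v))
    obtain ⟨η, h1, h2⟩ := (this.and self_mem_nhdsWithin).exists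
    exact ⟨η, h2, h1⟩
  obtain ⟨n, hn⟩ := hI.bddAbove
  refine ⟨k, n + 1, x, ε, hε, fun w hw => hst fun i hi => hrs i ?_⟩
  rw [mem_ball_iff_norm]
  exact (hw i (Nat.lt_succ_of_le (hn hi))).trans_le (hεr i hi)

theorem equiv_l2 {H : Type*} [NormedAddCommGroup H] [InnerProductSpace ℝ H] [CompleteSpace H]
    [SeparableSpace H] (hH : ¬ FiniteDimensional ℝ H) :
    Nonempty (H ≃ₗᵢ[ℝ] lp (fun _ : ℕ => ℝ) 2) := by
  obtain ⟨w, b, hb⟩ := exists_hilbertBasis ℝ H
  have hc : Countable w := by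
    refine Pairwise.countable_of_isOpen_disjoint (s := fun i : w => Metric.ball (b i) (1 / 2))
      (fun i j hij => Metric.ball_disjoint_ball ?_) (fun _ => Metric.isOpen_ball)
      fun _ => Metric.nonempty_ball.2 (by norm_num)
    have h1 : ‖b i - b j‖ ^ 2 = 2 := by
      rw [norm_sub_sq_real, b.orthonormal.1, b.orthonormal.1, b.orthonormal.2 hij]; norm_num
    rw [dist_eq_norm]
    nlinarith [norm_nonneg (b i - b j)]
  have hi : Infinite w := by
    by_contra h
    rw [not_infinite_iff_finite] at h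
    have := Fintype.ofFinite w
    exact hH b.toOrthonormalBasis.toBasis.finiteDimensional_of_finite
  obtain ⟨e⟩ : Nonempty (ℕ ≃ w) := inferInstance
  refine ⟨(HilbertBasis.mk (v := b ∘ e) (b.orthonormal.comp e e.injective) ?_).repr⟩
  rw [e.surjective.range_comp, b.dense_span]

/-- If the isometry class of `X` is `F_σ` among the pseudonorms with independent basis vectors,
then `X` is the Hilbert space. -/
theorem fsigma_l2 [SeparableSpace X] (hX : ¬ FiniteDimensional ℝ X)
    (F : ℕ → Set ((ℕ →₀ ℚ) → ℝ)) (hF : ∀ k, IsClosed (F k))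
    (h : ∀ μ ∈ Bind, μ ∈ cls X ↔ ∃ k, μ ∈ F k) :
    Nonempty (X ≃ₗᵢ[ℝ] lp (fun _ : ℕ => ℝ) 2) := by
  obtain ⟨k, n, x, ε, hε, hx⟩ := exists_good hX hF fun μ hμ => (h μ hμ).1
  let := InnerProductSpace.ofNorm ℝ (parallelogram_of_good hX (hF k) hε hx
    (rigid_of (fun μ hμ h' => (h μ hμ).2 ⟨k, h'⟩) n))
  exact equiv_l2 hX

end Pool.Agent.Lib.MP_ab3705_an
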