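import Pool.Agent.Lib.MP_ab3705_an.Dv
import Pool.Agent.Lib.MP_ab3705_an.Ext

/-!
The renormings `y ↦ N (P y) ‖y‖` of Hilbert spaces and the uniform step `P ↦ λ P`.
-/

set_option autoImplicit false

open Filter Topology Module TopologicalSpace
open scoped RealInnerProductSpace

noncomputable section

namespace Pool.Agent.Lib.MP_ab3705_an

/-- The pseudonorm on finitely supported rational sequences given by a sequence of vectors. -/
def mu {Z : Type*} [NormedAddCommGroup Z] [NormedSpace ℝ Z] (z : ℕ → Z) (v : ℕ →₀ ℚ) : ℝ :=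
  ‖comb z v‖

theorem map_comb {Z Z' : Type*} [AddCommGroup Z] [Module ℝ Z] [AddCommGroup Z'] [Module ℝ Z']
    (T : Z →ₗ[ℝ] Z') (z : ℕ → Z) (v : ℕ →₀ ℚ) : T (comb z v) = comb (fun i => T (z i)) v := by
  simp [comb, Finsupp.sum]

theorem mu_map {Z Z' : Type*} [NormedAddCommGroup Z] [NormedSpace ℝ Z] [NormedAddCommGroup Z']
    [NormedSpace ℝ Z'] (T : Z →ₗ[ℝ] Z') (hT : ∀ y, ‖T y‖ = ‖y‖) (z : ℕ → Z) :
    mu (fun i => T (z i)) = mu z := by
  funext v; rw [mu, mu, ← map_comb, hT]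

/-- All sequences whose first `n` terms are `d`-close to those of `u` are coded in `F`. -/
def Good (F : Set ((ℕ →₀ ℚ) → ℝ)) (n : ℕ) {Z : Type*} [NormedAddCommGroup Z] [NormedSpace ℝ Z]
    (u : ℕ → Z) (d : ℝ) : Prop :=
  ∀ w : ℕ → Z, (∀ i < n, ‖w i - u i‖ < d) → mu w ∈ F

theorem Good.pull {F : Set ((ℕ →₀ ℚ) → ℝ)} {n : ℕ} {Z Z' : Type*} [NormedAddCommGroup Z]
    [NormedSpace ℝ Z] [NormedAddCommGroup Z'] [NormedSpace ℝ Z'] {u : ℕ → Z'} {d d' : ℝ}
    (h : Good F n u d) (T : Z →ₗ[ℝ] Z') (hT : ∀ y, ‖T y‖ = ‖y‖) (u' : ℕ → Z)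
    (hu : ∀ i < n, ‖T (u' i) - u i‖ ≤ d - d') : Good F n u' d' := by
  intro w hw
  rw [← mu_map T hT]
  refine h _ fun i hi => ?_
  have h1 := norm_add_le (T (w i - u' i)) (T (u' i) - u i)
  rw [hT, map_sub, sub_add_sub_cancel] at h1
  linarith [hw i hi, hu i hi]

variable {X : Type*} [NormedAddCommGroup X] [NormedSpace ℝ X]

/-- The conclusion of Dvoretzky's theorem with parameters. -/
structure IsDP (N : X → ℝ → ℝ) : Prop where
  zero_right : ∀ x, N x 0 = ‖x‖
  zero_left : ∀ r, 0 ≤ r → N 0 r = r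
  approx : ∀ (H : Type) [NormedAddCommGroup H] [InnerProductSpace ℝ H]
    (ι : Type) (S : Finset ι) (x : ι → X) (h : ι → H) (η : ℝ), 0 < η →
      ∃ T : H →ₗ[ℝ] X, ∀ p ∈ S, |‖x p + T (h p)‖ - N (x p) ‖h p‖| < η

variable {N : X → ℝ → ℝ} {H : Type} [NormedAddCommGroup H] [InnerProductSpace ℝ H]

theorem IsDP.add_le (hN : IsDP N) (x x' : X) (h h' : H) :
    N (x + x') ‖h + h'‖ ≤ N x ‖h‖ + N x' ‖h'‖ := by
  refine le_of_forall_pos_le_add fun η hη => ?_
  obtain ⟨T, hT⟩ := hN.approx H (Fin 3) Finset.univ ![x, x', x + x'] ![h, h', h + h'] (η / 3)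
    (by positivity)
  have h0 := abs_lt.1 (hT 0 (Finset.mem_univ _))
  have h1 := abs_lt.1 (hT 1 (Finset.mem_univ _))
  have h2 := abs_lt.1 (hT 2 (Finset.mem_univ _))
  simp only [Matrix.cons_val_zero, Matrix.cons_val_one, Matrix.cons_val_two, Matrix.head_cons,
    Matrix.tail_cons, Nat.succ_eq_add_one, map_add] at h0 h1 h2
  have h3 := norm_add_le (x + T h) (x' + T h')
  rw [add_add_add_comm] at h3
  linarith [h0.1, h1.1, h2.2, h0.2, h1.2, h2.1]

theorem IsDP.smul (hN : IsDP N) (c : ℝ) (x : X) (h : H) :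
    N (c • x) ‖c • h‖ = |c| * N x ‖h‖ := by
  refine eq_of_forall_dist_le fun η hη => ?_
  have hc : 0 < |c| + 1 := by positivity
  obtain ⟨T, hT⟩ := hN.approx H (Fin 2) Finset.univ ![x, c • x] ![h, c • h] (η / (|c| + 1))
    (by positivity)
  have h0 := hT 0 (Finset.mem_univ _)
  have h1 := hT 1 (Finset.mem_univ _)
  simp only [Matrix.cons_val_zero, Matrix.cons_val_one, map_smul] at h0 h1
  rw [← smul_add, norm_smul, Real.norm_eq_abs] at h1
  rw [Real.dist_eq]
  have h2 := abs_sub_le (N (c • x) ‖c • h‖) (|c| * ‖x + T h‖) (|c| * N x ‖h‖)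
  rw [abs_sub_comm (N _ _) (|c| * ‖x + T h‖), ← mul_sub, abs_mul, abs_abs] at h2
  have h3 := mul_le_mul_of_nonneg_left h0.le (abs_nonneg c)
  have h4 : η / (|c| + 1) + |c| * (η / (|c| + 1)) = η := by field_simp; ring
  linarith

theorem IsDP.neg (hN : IsDP N) (x : X) (h : H) : N (-x) ‖h‖ = N x ‖h‖ := by
  simpa using hN.smul (-1) x h

theorem IsDP.right_le (hN : IsDP N) (x : X) (h : H) : ‖h‖ ≤ N x ‖h‖ := by
  have h1 := hN.add_le x (-x) h h
  rw [hN.neg, add_neg_cancel, hN.zero_left _ (norm_nonneg _), ← two_smul ℝ h, norm_smul] at h1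
  simp only [Real.norm_ofNat] at h1
  linarith

theorem IsDP.left_le (hN : IsDP N) (x : X) (h : H) : ‖x‖ ≤ N x ‖h‖ := by
  have h1 := hN.add_le x x h (-h)
  rw [norm_neg, add_neg_cancel, norm_zero, hN.zero_right, ← two_smul ℝ x, norm_smul] at h1
  simp only [Real.norm_ofNat] at h1
  linarith

theorem IsDP.le_add (hN : IsDP N) (x : X) (h : H) : N x ‖h‖ ≤ ‖x‖ + ‖h‖ := by
  have h1 := hN.add_le x 0 0 h
  rwa [add_zero, zero_add, norm_zero, hN.zero_right, hN.zero_left _ (norm_nonneg _)] at h1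

/-- The space `H` with the norm `y ↦ N (P y) ‖y‖`. -/
@[nolint unusedArguments]
def Gr (_ : IsDP N) (_ : H →L[ℝ] X) : Type := H

namespace Gr

variable (hN : IsDP N) (P : H →L[ℝ] X)

instance : AddCommGroup (Gr hN P) := inferInstanceAs (AddCommGroup H)
instance : Module ℝ (Gr hN P) := inferInstanceAs (Module ℝ H)

/-- The identity map. -/
def out : Gr hN P ≃ₗ[ℝ] H := LinearEquiv.refl ℝ H

instance : NormedAddCommGroup (Gr hN P) :=
  AddGroupNorm.toNormedAddCommGroup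
    { toFun := fun y => N (P (out hN P y)) ‖out hN P y‖
      map_zero' := by simp [hN.zero_right]
      add_le' := fun y y' => by rw [map_add, map_add]; exact hN.add_le _ _ _ _
      neg' := fun y => by rw [map_neg, map_neg, norm_neg, hN.neg]
      eq_zero_of_map_eq_zero' := fun y hy => by
        have h1 := hN.right_le (P (out hN P y)) (out hN P y)
        have h2 : N (P (out hN P y)) ‖out hN P y‖ = 0 := hy
        rw [h2] at h1
        exact (out hN P).injective (by rw [map_zero]; exact norm_le_zero_iff.1 h1) }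

theorem norm_eq (y : Gr hN P) : ‖y‖ = N (P (out hN P y)) ‖out hN P y‖ := rfl

instance : NormedSpace ℝ (Gr hN P) where
  norm_smul_le c y := by
    rw [norm_eq, norm_eq, map_smul, map_smul, hN.smul, Real.norm_eq_abs]

theorem le_norm (y : Gr hN P) : ‖out hN P y‖ ≤ ‖y‖ := hN.right_le _ _

theorem le_norm' (y : Gr hN P) : ‖P (out hN P y)‖ ≤ ‖y‖ := hN.left_le _ _

theorem norm_le (y : Gr hN P) : ‖y‖ ≤ (‖P‖ + 1) * ‖out hN P y‖ := by
  have h1 := hN.le_add (P (out hN P y)) (out hN P y)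
  have h2 := P.le_opNorm (out hN P y)
  rw [norm_eq]; linarith

/-- The identity map is bicontinuous. -/
def outL : Gr hN P ≃L[ℝ] H :=
  (out hN P).toContinuousLinearEquivOfBounds 1 (‖P‖ + 1)
    (fun y => by rw [one_mul]; exact le_norm hN P y)
    (fun y => by simpa using norm_le hN P ((out hN P).symm y))

instance [CompleteSpace H] : CompleteSpace (Gr hN P) :=
  ((outL hN P).isUniformEmbedding.isUniformInducing.completeSpace_congr
    (outL hN P).surjective).2 inferInstance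

instance [SeparableSpace H] : SeparableSpace (Gr hN P) :=
  (outL hN P).symm.surjective.denseRange.separableSpace (outL hN P).symm.continuous

theorem not_fd (h : ¬ FiniteDimensional ℝ H) : ¬ FiniteDimensional ℝ (Gr hN P) :=
  fun _ => h (out hN P).finiteDimensional

end Gr

/-- Goodness passes from `X` to the renormed Hilbert spaces. -/
theorem good_start (hN : IsDP N) {F : Set ((ℕ →₀ ℚ) → ℝ)} (hF : IsClosed F) {n : ℕ} {x : ℕ → X}
    {ε : ℝ} (hx : Good F n x ε) (P : H →L[ℝ] X) (u : ℕ → Gr hN P)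
    (hu : ∀ i < n, P (Gr.out hN P (u i)) = x i ∧ ‖Gr.out hN P (u i)‖ ≤ ε / 4) (hε : 0 < ε) :
    Good F n u (ε / 4) := by
  intro w hw
  rw [← hF.closure_eq, mem_closure_iff_nhds]
  intro t ht
  rw [nhds_pi, Filter.mem_pi] at ht
  obtain ⟨I, hI, s, hs, hst⟩ := ht
  have hb := fun v => Metric.mem_nhds_iff.1 (hs v)
  choose r hr hrs using hb
  obtain ⟨η, hη, hηr⟩ : ∃ η > 0, η ≤ ε / 4 ∧ ∀ v ∈ I, η ≤ r v := by
    have : ∀ᶠ η in 𝓝[>] (0 : ℝ), η ≤ ε / 4 ∧ ∀ v ∈ I, η ≤ r v := by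
      refine Eventually.and (nhdsWithin_le_nhds (ge_mem_nhds (by positivity))) ?_
      exact (eventually_all_finite hI).2 fun v _ => nhdsWithin_le_nhds (ge_mem_nhds (hr v))
    obtain ⟨η, h1, h2⟩ := (this.and self_mem_nhdsWithin).exists
    exact ⟨η, h2, h1⟩
  classical
  let y : (ℕ →₀ ℚ) ⊕ ℕ → H :=
    Sum.elim (fun v => Gr.out hN P (comb w v)) fun i => Gr.out hN P (w i)
  let a : (ℕ →₀ ℚ) ⊕ ℕ → X := Sum.elim (fun v => P (y (.inl v))) fun i => P (y (.inr i)) - x i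
  obtain ⟨T, hT⟩ := hN.approx H _ (hI.toFinset.disjSum (Finset.range n)) a y η hη
  let Q : Gr hN P →ₗ[ℝ] X := ((P : H →ₗ[ℝ] X) + T) ∘ₗ (Gr.out hN P).toLinearMap
  refine ⟨mu fun i => Q (w i), hst fun v hv => hrs v ?_, hx _ fun i hi => ?_⟩
  · have h1 := hT (.inl v) (by simpa using hv)
    rw [Metric.mem_ball, Real.dist_eq, mu, mu, ← map_comb]
    exact h1.trans_le (hηr.2 v hv)
  · have h1 := (abs_lt.1 (hT (.inr i) (by simpa using hi))).2
    have h2 : Q (w i) - x i = a (.inr i) + T (y (.inr i)) := by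
      simp only [Q, a, y, Sum.elim_inr, LinearMap.comp_apply, LinearMap.add_apply,
        LinearEquiv.coe_coe, ContinuousLinearMap.coe_coe]
      abel
    have h3 := hN.add_le (P (Gr.out hN P (w i - u i))) 0 (Gr.out hN P (w i - u i))
      (Gr.out hN P (u i))
    rw [← Gr.norm_eq hN P, hN.zero_left _ (norm_nonneg _), add_zero, map_sub, map_sub, (hu i hi).1,
      sub_add_cancel] at h3
    have h4 : N (a (.inr i)) ‖y (.inr i)‖
        = N (P (Gr.out hN P (w i)) - x i) ‖Gr.out hN P (w i)‖ := rfl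
    rw [h2]
    linarith [hw i hi, (hu i hi).2, hηr.1]

end Pool.Agent.Lib.MP_ab3705_an
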