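import Pool.Agent.Lib.MP_ab3705_an.FsB

/-!
The uniform step and the parallelogram law.
-/

set_option autoImplicit false

open Filter Topology Module TopologicalSpace
open scoped RealInnerProductSpace

noncomputable section

namespace Pool.Agent.Lib.MP_ab3705_an

variable {X : Type*} [NormedAddCommGroup X] [NormedSpace ℝ X] {N : X → ℝ → ℝ}

theorem exists_iso {W G : Type*} [NormedAddCommGroup W] [InnerProductSpace ℝ W]
    [NormedAddCommGroup G] [InnerProductSpace ℝ G] [FiniteDimensional ℝ G]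
    (hW : ¬ FiniteDimensional ℝ W) : Nonempty (G →ₗᵢ[ℝ] W) := by
  have hr : ((finrank ℝ G : ℕ) : Cardinal) ≤ Module.rank ℝ W := by
    have : Cardinal.aleph0 ≤ Module.rank ℝ W := by
      rw [← not_lt, Module.rank_lt_aleph0_iff]; exact hW
    exact (Cardinal.natCast_lt_aleph0).le.trans this
  obtain ⟨v, hv⟩ := Module.le_rank_iff.1 hr
  let K := Submodule.span ℝ (Set.range v)
  have : FiniteDimensional ℝ K := FiniteDimensional.span_of_finite ℝ (Set.finite_range v)
  have hK : finrank ℝ G = finrank ℝ K := by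
    simpa using (finrank_span_eq_card hv).symm
  exact ⟨K.subtypeₗᵢ.comp ((stdOrthonormalBasis ℝ G).equiv (stdOrthonormalBasis ℝ K)
    (finCongr hK)).toLinearIsometry⟩

theorem orth_not_fd {H : Type*} [NormedAddCommGroup H] [InnerProductSpace ℝ H]
    (hH : ¬ FiniteDimensional ℝ H) (L : Submodule ℝ H) [FiniteDimensional ℝ L] :
    ¬ FiniteDimensional ℝ Lᗮ := by
  intro h
  have h1 : FiniteDimensional ℝ (L ⊔ Lᗮ : Submodule ℝ H) := inferInstance
  rw [Submodule.sup_orthogonal_of_hasOrthogonalProjection] at h1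
  exact hH Submodule.topEquiv.finiteDimensional

/-- `X` is a renormed Hilbert space with a finite-rank parameter of norm at most `c`. -/
def Stage (hN : IsDP N) (c : ℝ) : Prop :=
  ∃ (H : Type) (_ : NormedAddCommGroup H) (_ : InnerProductSpace ℝ H) (_ : CompleteSpace H)
    (_ : SeparableSpace H), ¬ FiniteDimensional ℝ H ∧ ∃ P : H →L[ℝ] X,
      FiniteDimensional ℝ (LinearMap.range (P : H →ₗ[ℝ] X)) ∧ ‖P‖ ≤ c ∧
        Nonempty (Gr hN P ≃ₗᵢ[ℝ] X)

/-- Every good separable infinite-dimensional Banach space is isometric to `X`. -/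
def Rigid (F : Set ((ℕ →₀ ℚ) → ℝ)) (n : ℕ) (X : Type*) [NormedAddCommGroup X]
    [NormedSpace ℝ X] : Prop :=
  ∀ (Z : Type) [NormedAddCommGroup Z] [NormedSpace ℝ Z] [CompleteSpace Z] [SeparableSpace Z],
    ¬ FiniteDimensional ℝ Z → ∀ (u : ℕ → Z) (d : ℝ), 0 < d → Good F n u d → Nonempty (Z ≃ₗᵢ[ℝ] X)

theorem stage_start (hN : IsDP N) {F : Set ((ℕ →₀ ℚ) → ℝ)} (hF : IsClosed F) {n : ℕ} {x : ℕ → X}
    {ε : ℝ} (hε : 0 < ε) (hx : Good F n x ε) (hR : Rigid F n X) : ∃ c, Stage hN c := by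
  let H := lp (fun _ : ℕ => ℝ) 2
  let b : HilbertBasis ℕ ℝ H := default
  have hH : ¬ FiniteDimensional ℝ H := fun _ =>
    Module.Finite.not_linearIndependent_of_infinite _ b.orthonormal.linearIndependent
  have hsep : SeparableSpace H := by
    rw [← isSeparable_univ_iff]
    have h1 := ((Set.countable_range b).isSeparable.span (R := ℝ)).closure
    rwa [← Submodule.topologicalClosure_coe, b.dense_span] at h1
  let P : H →L[ℝ] X := ∑ i ∈ Finset.range n, (innerSL ℝ (b i)).smulRight ((4 / ε) • x i)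
  have hP : ∀ y, P y = ∑ i ∈ Finset.range n, ⟪b i, y⟫ • (4 / ε) • x i := fun y => by
    simp [P]
  have hfd : FiniteDimensional ℝ (LinearMap.range (P : H →ₗ[ℝ] X)) := by
    have : FiniteDimensional ℝ (Submodule.span ℝ (x '' (Finset.range n : Set ℕ))) :=
      FiniteDimensional.span_of_finite ℝ ((Finset.range n).finite_toSet.image x)
    refine Submodule.finiteDimensional_of_le (S₂ := Submodule.span ℝ
      (x '' (Finset.range n : Set ℕ))) ?_
    rintro _ ⟨y, rfl⟩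
    change P y ∈ _
    rw [hP]
    exact Submodule.sum_mem _ fun i hi => Submodule.smul_mem _ _ (Submodule.smul_mem _ _
      (Submodule.subset_span ⟨i, hi, rfl⟩))
  refine ⟨‖P‖, H, inferInstance, inferInstance, inferInstance, hsep, hH, P, hfd, le_rfl, ?_⟩
  refine hR _ (Gr.not_fd hN P hH) (fun i => (Gr.out hN P).symm ((ε / 4) • b i)) (ε / 4)
    (by positivity) (good_start hN hF hx P _ (fun i hi => ⟨?_, ?_⟩) hε)
  · rw [LinearEquiv.apply_symm_apply, map_smul, hP, Finset.sum_eq_single i]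
    · rw [real_inner_self_eq_norm_sq, b.orthonormal.1 i, smul_smul, smul_smul]
      have : ε / 4 * 1 ^ 2 * (4 / ε) = 1 := by field_simp
      rw [this, one_smul]
    · intro j _ hj
      rw [b.orthonormal.2 hj, zero_smul]
    · intro h; exact absurd (Finset.mem_range.2 hi) h
  · rw [LinearEquiv.apply_symm_apply, norm_smul, b.orthonormal.1 i, Real.norm_eq_abs,
      abs_of_pos (by positivity), mul_one]

theorem stage_step (hN : IsDP N) {F : Set ((ℕ →₀ ℚ) → ℝ)} {n : ℕ} {x : ℕ → X}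
    {ε : ℝ} (hε : 0 < ε) (hx : Good F n x ε) (hR : Rigid F n X) {l t : ℝ} (hl : 0 ≤ l)
    (ht : 0 ≤ t) (hlt : l ^ 2 + t ^ 2 = 1) (hs : ∀ i < n, 3 * t * ‖x i‖ ≤ ε / 2) {c : ℝ}
    (h : Stage hN c) : Stage hN (l * c) := by
  obtain ⟨H, _, _, _, _, hH, P, hfd, hc, ⟨U⟩⟩ := h
  have hl1 : l ≤ 1 := by nlinarith
  have hl2 : 1 - l ≤ t := by nlinarith
  let K0 : Submodule ℝ H := LinearMap.ker (P : H →ₗ[ℝ] X)
  have : CompleteSpace K0 := P.isClosed_ker.completeSpace_coe
  let K : Submodule ℝ H := K0ᗮ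
  have hKfd : FiniteDimensional ℝ K := by
    refine FiniteDimensional.of_injective
      ((P : H →ₗ[ℝ] X).rangeRestrict ∘ₗ K.subtype) ?_
    rw [← LinearMap.ker_eq_bot, LinearMap.ker_eq_bot']
    intro y hy
    have h1 : (y : H) ∈ K0 := congrArg Subtype.val hy
    have h2 := Submodule.inner_right_of_mem_orthogonal h1 y.2
    exact Subtype.ext (inner_self_eq_zero.1 h2)
  have hPK : ∀ y, P (K.starProjection y) = P y := by
    intro y
    have h1 := K.sub_starProjection_mem_orthogonal y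
    rw [Submodule.orthogonal_orthogonal] at h1
    have h2 : P (y - K.starProjection y) = 0 := h1
    rw [map_sub, sub_eq_zero] at h2
    exact h2.symm
  let u : ℕ → H := fun i => Gr.out hN P (U.symm (x i))
  let L : Submodule ℝ H := K ⊔ Submodule.span ℝ (u '' (Finset.range n : Set ℕ))
  have : FiniteDimensional ℝ (Submodule.span ℝ (u '' (Finset.range n : Set ℕ))) :=
    FiniteDimensional.span_of_finite ℝ ((Finset.range n).finite_toSet.image u)
  have hLfd : FiniteDimensional ℝ L := inferInstance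
  obtain ⟨f0⟩ := exists_iso (G := K) (orth_not_fd hH L)
  let f : H →ₗ[ℝ] H := Lᗮ.subtype ∘ₗ f0.toLinearMap ∘ₗ (K.orthogonalProjectionOnto : H →ₗ[ℝ] K)
  have hfn : ∀ y, ‖f y‖ = ‖K.starProjection y‖ := fun y => f0.norm_map _
  have hfL : ∀ y, ∀ z ∈ L, ⟪z, f y⟫ = 0 := fun y z hz =>
    Submodule.inner_right_of_mem_orthogonal hz (f0 _).2
  have hfP : ∀ y, P (f y) = 0 := by
    intro y
    have h1 : f y ∈ Kᗮ := fun z hz => hfL y z (Submodule.mem_sup_left hz)
    rwa [Submodule.orthogonal_orthogonal] at h1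
  let M : Submodule ℝ H := LinearMap.range f
  have hMfd : FiniteDimensional ℝ M := by
    have : M ≤ LinearMap.range (Lᗮ.subtype ∘ₗ f0.toLinearMap) := by
      rintro _ ⟨y, rfl⟩; exact ⟨_, rfl⟩
    exact Submodule.finiteDimensional_of_le this
  let J : H →ₗ[ℝ] H := LinearMap.id + (l - 1) • (K.starProjection : H →ₗ[ℝ] H) + t • f
  have hJ : ∀ y, J y = y + (l - 1) • K.starProjection y + t • f y := fun y => rfl
  have hJP : ∀ y, P (J y) = l • P y := by
    intro y
    rw [hJ, map_add, map_add, map_smul, map_smul, hPK, hfP]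
    module
  have hJn : ∀ y ∈ Mᗮ, ‖J y‖ = ‖y‖ := by
    intro y hy
    have h1 : ⟪y, f y⟫ = 0 := Submodule.inner_left_of_mem_orthogonal (LinearMap.mem_range_self f y) hy
    have h2 : ⟪K.starProjection y, f y⟫ = 0 :=
      hfL y _ (Submodule.mem_sup_left (K.starProjection_apply_mem y))
    have h3 : ⟪y, K.starProjection y⟫ = ‖K.starProjection y‖ ^ 2 := by
      have := K.starProjection_inner_eq_zero y _ (K.starProjection_apply_mem y)
      rwa [inner_sub_left, real_inner_self_eq_norm_sq, sub_eq_zero] at this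
    have h4 : ‖J y‖ ^ 2 = ‖y‖ ^ 2 := by
      rw [hJ, norm_add_sq_real, norm_add_sq_real, inner_add_left, real_inner_smul_right,
        real_inner_smul_right, real_inner_smul_right, real_inner_smul_left, h1, h2, h3, norm_smul,
        norm_smul, hfn, mul_pow, mul_pow, Real.norm_eq_abs, Real.norm_eq_abs, sq_abs, sq_abs]
      linear_combination ‖K.starProjection y‖ ^ 2 * hlt
    exact (pow_left_inj₀ (norm_nonneg _) (norm_nonneg _) two_ne_zero).1 h4
  let P' : Mᗮ →L[ℝ] X := l • P.comp Mᗮ.subtypeL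
  have hP' : ∀ y : Mᗮ, P' y = l • P y := fun y => rfl
  have hH' := orth_not_fd hH M
  have : SecondCountableTopology H := UniformSpace.secondCountable_of_separable H
  refine ⟨Mᗮ, inferInstance, inferInstance, inferInstance, inferInstance, hH', P', ?_, ?_, ?_⟩
  · refine Submodule.finiteDimensional_of_le (S₂ := LinearMap.range (P : H →ₗ[ℝ] X)) ?_
    rintro _ ⟨y, rfl⟩
    exact ⟨l • (y : H), by simp [hP']⟩
  · refine P'.opNorm_le_bound (mul_nonneg hl ((norm_nonneg P).trans hc)) fun y => ?_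
    rw [hP', norm_smul, Real.norm_eq_abs, abs_of_nonneg hl, mul_assoc]
    exact mul_le_mul_of_nonneg_left ((P.le_opNorm y).trans
      (mul_le_mul_of_nonneg_right hc (norm_nonneg _))) hl
  let T : Gr hN P' →ₗ[ℝ] Gr hN P :=
    (Gr.out hN P).symm.toLinearMap ∘ₗ J ∘ₗ Mᗮ.subtype ∘ₗ (Gr.out hN P').toLinearMap
  have hT0 : ∀ y, Gr.out hN P (T y) = J (Gr.out hN P' y) := fun y => rfl
  have hT : ∀ y, ‖T y‖ = ‖y‖ := by
    intro y
    rw [Gr.norm_eq, Gr.norm_eq, hT0, hJP, hJn _ (Gr.out hN P' y).2, hP']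
    rfl
  classical
  have hum : ∀ i < n, u i ∈ Mᗮ := by
    rintro i hi _ ⟨y, rfl⟩
    rw [real_inner_comm]
    exact hfL y _ (Submodule.mem_sup_right (Submodule.subset_span ⟨i, by simpa using hi, rfl⟩))
  let u' : ℕ → Gr hN P' := fun i =>
    (Gr.out hN P').symm (if hi : i < n then ⟨u i, hum i hi⟩ else 0)
  have hg1 : Good F n (fun i => U.symm (x i)) ε :=
    hx.pull U.toLinearEquiv.toLinearMap U.norm_map _ fun i _ => by simp
  refine hR _ (Gr.not_fd hN P' hH') u' (ε / 2) (by positivity) (hg1.pull T hT u' fun i hi => ?_)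
  have h1 : Gr.out hN P (T (u' i) - U.symm (x i))
      = (l - 1) • K.starProjection (u i) + t • f (u i) := by
    rw [map_sub, hT0]
    simp only [u', LinearEquiv.apply_symm_apply, dif_pos hi, hJ]
    change u i + _ + _ - u i = _
    abel
  have h2 : ‖u i‖ ≤ ‖x i‖ := (Gr.le_norm hN P _).trans_eq (U.symm.norm_map _)
  have h3 : ‖P (u i)‖ ≤ ‖x i‖ := (Gr.le_norm' hN P _).trans_eq (U.symm.norm_map _)
  have h4 := K.norm_starProjection_apply_le (u i)
  have h5 := hN.le_add (P (Gr.out hN P (T (u' i) - U.symm (x i))))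
    (Gr.out hN P (T (u' i) - U.symm (x i)))
  rw [← Gr.norm_eq hN P, h1, map_add, map_smul, map_smul, hPK, hfP, smul_zero, add_zero,
    norm_smul] at h5
  have h6 := norm_add_le ((l - 1) • K.starProjection (u i)) (t • f (u i))
  rw [norm_smul, norm_smul, hfn, Real.norm_eq_abs t, abs_of_nonneg ht] at h6
  rw [Real.norm_eq_abs, abs_sub_comm, abs_of_nonneg (by linarith : 0 ≤ 1 - l)] at h5 h6
  have h7 := hs i hi
  have h8 : (1 - l) * ‖P (u i)‖ ≤ t * ‖x i‖ := by gcongr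
  have h9 : (1 - l) * ‖K.starProjection (u i)‖ ≤ t * ‖x i‖ := by gcongr; linarith
  have h10 : t * ‖K.starProjection (u i)‖ ≤ t * ‖x i‖ := by gcongr; linarith
  linarith

theorem stage_le (hN : IsDP N) {c : ℝ} (h : Stage hN c) (a b : X) :
    ‖a + b‖ ^ 2 + ‖a - b‖ ^ 2 ≤ (c + 1) ^ 2 * (2 * (‖a‖ ^ 2 + ‖b‖ ^ 2)) := by
  obtain ⟨H, _, _, _, _, -, P, -, hc, ⟨U⟩⟩ := h
  obtain ⟨a, rfl⟩ := U.surjective a
  obtain ⟨b, rfl⟩ := U.surjective b
  rw [← map_add, ← map_sub, U.norm_map, U.norm_map, U.norm_map, U.norm_map]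
  have h0 : ∀ y : Gr hN P, ‖y‖ ^ 2 ≤ (c + 1) ^ 2 * ‖Gr.out hN P y‖ ^ 2 := fun y => by
    rw [← mul_pow]
    exact pow_le_pow_left₀ (norm_nonneg _) ((Gr.norm_le hN P y).trans (by gcongr)) 2
  have h1 := h0 (a + b)
  have h2 := h0 (a - b)
  rw [map_add] at h1
  rw [map_sub] at h2
  have h3 := parallelogram_law_with_norm ℝ (Gr.out hN P a) (Gr.out hN P b)
  have h4 := pow_le_pow_left₀ (norm_nonneg _) (Gr.le_norm hN P a) 2
  have h5 := pow_le_pow_left₀ (norm_nonneg _) (Gr.le_norm hN P b) 2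
  have h6 : ‖Gr.out hN P a + Gr.out hN P b‖ ^ 2 + ‖Gr.out hN P a - Gr.out hN P b‖ ^ 2
      ≤ 2 * (‖a‖ ^ 2 + ‖b‖ ^ 2) := by nlinarith
  have h7 := mul_le_mul_of_nonneg_left h6 (sq_nonneg (c + 1))
  linarith

theorem parallelogram_of_good (hX : ¬ FiniteDimensional ℝ X) {F : Set ((ℕ →₀ ℚ) → ℝ)}
    (hF : IsClosed F) {n : ℕ} {x : ℕ → X} {ε : ℝ} (hε : 0 < ε) (hx : Good F n x ε)
    (hR : Rigid F n X) (a b : X) :
    ‖a + b‖ * ‖a + b‖ + ‖a - b‖ * ‖a - b‖ = 2 * (‖a‖ * ‖a‖ + ‖b‖ * ‖b‖) := by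
  obtain ⟨N, h1, h2, h3⟩ := dvoretzky_param hX
  have hN : IsDP N := ⟨h1, h2, h3⟩
  obtain ⟨c, hc⟩ := stage_start hN hF hε hx hR
  obtain ⟨t, ht0, ht1, ht⟩ : ∃ t : ℝ, 0 < t ∧ t ≤ 1 ∧ ∀ i < n, 3 * t * ‖x i‖ ≤ ε / 2 := by
    have : ∀ᶠ t in 𝓝[>] (0 : ℝ), t ≤ 1 ∧ ∀ i ∈ Finset.range n, 3 * t * ‖x i‖ ≤ ε / 2 := by
      refine Eventually.and (nhdsWithin_le_nhds (ge_mem_nhds one_pos)) ?_
      refine (Finset.eventually_all _).2 fun i _ => nhdsWithin_le_nhds ?_
      have hc : Continuous fun t : ℝ => 3 * t * ‖x i‖ := by fun_prop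
      exact hc.continuousAt.eventually (ge_mem_nhds (by simpa using hε))
    obtain ⟨t, h1, h2⟩ := (this.and self_mem_nhdsWithin).exists
    exact ⟨t, h2, h1.1, fun i hi => h1.2 i (Finset.mem_range.2 hi)⟩
  set l := √(1 - t ^ 2) with hl
  have hl0 : 0 ≤ l := Real.sqrt_nonneg _
  have hlt : l ^ 2 + t ^ 2 = 1 := by rw [hl, Real.sq_sqrt (by nlinarith)]; ring
  have hl1 : l < 1 := by nlinarith
  have hst : ∀ j : ℕ, Stage hN (l ^ j * c) := by
    intro j
    induction j with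
    | zero => simpa using hc
    | succ j ih =>
      rw [pow_succ', mul_assoc]
      exact stage_step hN hε hx hR hl0 ht0.le hlt ht ih
  have key : ∀ a b : X, ‖a + b‖ ^ 2 + ‖a - b‖ ^ 2 ≤ 2 * (‖a‖ ^ 2 + ‖b‖ ^ 2) := by
    intro a b
    have h4 : Tendsto (fun j : ℕ => (l ^ j * c + 1) ^ 2 * (2 * (‖a‖ ^ 2 + ‖b‖ ^ 2))) atTop
        (𝓝 ((0 * c + 1) ^ 2 * (2 * (‖a‖ ^ 2 + ‖b‖ ^ 2)))) :=
      ((((tendsto_pow_atTop_nhds_zero_of_lt_one hl0 hl1).mul_const c).add_const 1).pow 2).mul_const _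
    simpa using ge_of_tendsto' h4 fun j => stage_le hN (hst j) a b
  have k1 := key a b
  have k2 := key (a + b) (a - b)
  have e1 : a + b + (a - b) = (2 : ℝ) • a := by module
  have e2 : a + b - (a - b) = (2 : ℝ) • b := by module
  rw [e1, e2, norm_smul, norm_smul, Real.norm_ofNat] at k2
  nlinarith

end Pool.Agent.Lib.MP_ab3705_an
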