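import Pool.Agent.Lib.MP_ab3705_an.FsA

/-!
The isometry class of a separable Banach space other than the Hilbert space is `G_δ`-hard.
-/

set_option autoImplicit false

open Filter Topology Module TopologicalSpace Metric

noncomputable section

namespace Pool.Agent.Lib.MP_ab3705_an

/-- A Hurewicz-type construction. -/
theorem hurewicz {W M : Type*} [MetricSpace W] [CompleteSpace W] [Nonempty W] [MetricSpace M]
    [CompleteSpace M] {φ : W → M} (hφ : Continuous φ) {G : ℕ → Set W} (hG : ∀ n, IsOpen (G n))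
    (hd : ∀ n, Dense (G n)) {C : Set M}
    (hC : ∀ (w : W) (r : ℝ), 0 < r → ∃ ν ∈ C, ν ∈ closure (φ '' ball w r)) :
    ∃ f : (ℕ → Bool) → M, Continuous f ∧ ∀ α, ((∃ᶠ n in atTop, α n = true) → f α ∈ φ '' ⋂ n, G n) ∧
      (¬ (∃ᶠ n in atTop, α n = true) → f α ∈ C) := by
  let S := {p : W × ℝ × M // 0 < p.2.1 ∧ p.2.2 ∈ C ∧ p.2.2 ∈ closure (φ '' ball p.1 p.2.1)}
  have hstep : ∀ (n : ℕ) (s : S), ∃ s' : S, s'.1.2.1 ≤ s.1.2.1 ∧ s'.1.2.1 ≤ 2 / 2 / 2 ^ n ∧
      closedBall s'.1.1 s'.1.2.1 ⊆ ball s.1.1 s.1.2.1 ∩ (⋂ i ∈ Set.Iic n, G i) ∩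
        φ ⁻¹' ball s.1.2.2 (2 / 2 / 2 ^ n) ∧ dist s.1.2.2 s'.1.2.2 ≤ 2 / 2 / 2 ^ n := by
    rintro n ⟨⟨w, r, ν⟩, hr, -, hν⟩
    have hp : (0 : ℝ) < 2 / 2 / 2 ^ n := by positivity
    obtain ⟨_, ⟨w0, hw0, rfl⟩, hw1⟩ := Metric.mem_closure_iff.1 hν _ hp
    have ho1 : IsOpen (⋂ i ∈ Set.Iic n, G i) := (Set.finite_Iic n).isOpen_biInter fun i _ => hG i
    have hd1 : Dense (⋂ i ∈ Set.Iic n, G i) :=
      dense_biInter_of_isOpen (fun i _ => hG i) (Set.to_countable _) fun i _ => hd i
    have ho2 : IsOpen (ball w r ∩ φ ⁻¹' ball ν (2 / 2 / 2 ^ n)) :=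
      isOpen_ball.inter (isOpen_ball.preimage hφ)
    obtain ⟨w', hw', hw''⟩ := hd1.inter_open_nonempty _ ho2 ⟨w0, hw0, by
      simpa [dist_comm] using hw1⟩
    obtain ⟨ρ, hρ, hρ'⟩ := nhds_basis_closedBall.mem_iff.1 ((ho2.inter ho1).mem_nhds ⟨hw', hw''⟩)
    set r' := min ρ (min r (2 / 2 / 2 ^ n)) with hr'
    have hr0 : 0 < r' := lt_min hρ (lt_min hr hp)
    have hsub := (closedBall_subset_closedBall (x := w') (min_le_left _ _ : r' ≤ ρ)).trans hρ'
    obtain ⟨ν', hν1, hν2⟩ := hC w' r' hr0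
    refine ⟨⟨(w', r', ν'), hr0, hν1, hν2⟩, (min_le_right _ _).trans (min_le_left _ _),
      (min_le_right _ _).trans (min_le_right _ _),
      fun y hy => ⟨⟨(hsub hy).1.1, (hsub hy).2⟩, (hsub hy).1.2⟩, ?_⟩
    have : ν' ∈ closedBall ν (2 / 2 / 2 ^ n) := by
      refine closure_minimal ?_ isClosed_closedBall hν2
      rintro _ ⟨y, hy, rfl⟩
      exact ball_subset_closedBall (hsub (ball_subset_closedBall hy)).1.2
    simpa [dist_comm] using this
  choose step h1 h2 h3 h4 using hstep
  obtain ⟨w0⟩ := ‹Nonempty W›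
  obtain ⟨ν0, hν0, hν0'⟩ := hC w0 1 one_pos
  let st : ℕ → (ℕ → Bool) → S := fun n => Nat.rec (fun _ => ⟨(w0, 1, ν0), one_pos, hν0, hν0'⟩)
    (fun n s α => if α n = true then step n (s α) else s α) n
  have hst : ∀ n α, st (n + 1) α = if α n = true then step n (st n α) else st n α := fun _ _ => rfl
  have hlc : ∀ n, IsLocallyConstant (st n) := by
    intro n
    induction n with
    | zero => exact IsLocallyConstant.const _
    | succ n ih =>
      exact ((IsLocallyConstant.iff_continuous fun α : ℕ → Bool => α n).2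
        (continuous_apply n)).comp₂ ih fun b s => if b = true then step n s else s
  have hν : ∀ α n, dist (st n α).1.2.2 (st (n + 1) α).1.2.2 ≤ 2 / 2 / 2 ^ n := by
    intro α n
    rw [hst]
    split_ifs
    · exact h4 _ _
    · rw [dist_self]; positivity
  choose f hf using fun α => cauchySeq_tendsto_of_complete (cauchySeq_of_le_geometric_two (hν α))
  have hfd := fun α n => dist_le_of_le_geometric_two_of_tendsto (hν α) (hf α) n
  have h0 : Tendsto (fun n : ℕ => (2 : ℝ) / 2 ^ n) atTop (𝓝 0) :=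
    tendsto_const_nhds.div_atTop (tendsto_pow_atTop_atTop_of_one_lt one_lt_two)
  refine ⟨f, ?_, fun α => ⟨fun hα => ?_, fun hα => ?_⟩⟩
  · refine TendstoUniformly.continuous (F := fun n α => (st n α).1.2.2) (p := atTop) ?_
      (Frequently.of_forall fun n => ((hlc n).comp fun s : S => s.1.2.2).continuous)
    refine Metric.tendstoUniformly_iff.2 fun ε hε => ?_
    filter_upwards [h0.eventually (gt_mem_nhds hε)] with n hn α
    rw [dist_comm]
    exact (hfd α n).trans_lt hn
  · have ha : Antitone fun n => (st n α).1.2.1 := by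
      refine antitone_nat_of_succ_le fun n => ?_
      rw [hst]
      split_ifs
      exacts [h1 _ _, le_rfl]
    have hb : Antitone fun n => closedBall (st n α).1.1 (st n α).1.2.1 := by
      refine antitone_nat_of_succ_le fun n => ?_
      rw [hst]
      split_ifs
      exacts [fun y hy => ball_subset_closedBall (h3 _ _ hy).1.1, le_rfl]
    have hr : Tendsto (fun n => (st n α).1.2.1) atTop (𝓝 0) := by
      refine tendsto_order.2 ⟨fun a ha => Eventually.of_forall fun n => ha.trans (st n α).2.1,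
        fun a ha' => ?_⟩
      obtain ⟨n, hn, hn'⟩ := (hα.and_eventually (h0.eventually (gt_mem_nhds ha'))).exists
      filter_upwards [eventually_ge_atTop (n + 1)] with m hm
      refine (ha hm).trans_lt ?_
      have h5 := h2 n (st n α)
      have h6 : (2 : ℝ) / 2 / 2 ^ n ≤ 2 / 2 ^ n := by gcongr; norm_num
      simp only [hst, if_pos hn]
      linarith
    have hm : ∀ n m, n ≤ m → (st m α).1.1 ∈ closedBall (st n α).1.1 (st n α).1.2.1 :=
      fun n m h => hb h (mem_closedBall_self (st m α).2.1.le)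
    obtain ⟨w, hw⟩ := cauchySeq_tendsto_of_complete (cauchySeq_of_le_tendsto_0'
      (s := fun n => (st n α).1.1) _ (fun n m h => by simpa [dist_comm] using hm n m h) hr)
    have hw' : ∀ n, w ∈ closedBall (st n α).1.1 (st n α).1.2.1 := fun n =>
      isClosed_closedBall.mem_of_tendsto hw ((eventually_ge_atTop n).mono (hm n))
    have hw2 : ∀ n, α n = true → w ∈ (⋂ i ∈ Set.Iic n, G i) ∧
        φ w ∈ ball (st n α).1.2.2 (2 / 2 / 2 ^ n) := by
      intro n hn
      have h5 := hw' (n + 1)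
      rw [hst, if_pos hn] at h5
      exact ⟨(h3 _ _ h5).1.2, (h3 _ _ h5).2⟩
    refine ⟨w, Set.mem_iInter.2 fun i => ?_, ?_⟩
    · obtain ⟨n, hn, hn'⟩ := (hα.and_eventually (eventually_ge_atTop i)).exists
      exact Set.mem_iInter₂.1 (hw2 n hn).1 i hn'
    · refine eq_of_forall_dist_le fun ε hε => ?_
      obtain ⟨n, hn, hn'⟩ :=
        (hα.and_eventually (h0.eventually (gt_mem_nhds (half_pos hε)))).exists
      have h5 := mem_ball.1 (hw2 n hn).2
      have h6 : (2 : ℝ) / 2 / 2 ^ n ≤ 2 / 2 ^ n := by gcongr; norm_num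
      linarith [dist_triangle (φ w) (st n α).1.2.2 (f α), hfd α n]
  · obtain ⟨n, hn⟩ := eventually_atTop.1 (not_frequently.1 hα)
    have hc : ∀ m, n ≤ m → st m α = st n α := by
      intro m hm
      induction m, hm using Nat.le_induction with
      | base => rfl
      | succ m hm ih => rw [hst, if_neg (hn m hm), ih]
    have : Tendsto (fun m => (st m α).1.2.2) atTop (𝓝 (st n α).1.2.2) :=
      tendsto_const_nhds.congr' ((eventually_ge_atTop n).mono fun m hm => by simp only [hc m hm])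
    rw [tendsto_nhds_unique (hf α) this]
    exact (st n α).2.2.1

/-- Every `G_δ` subset of a second countable space with a basis of clopen sets reduces
continuously to the set of binary sequences with infinitely many ones. -/
theorem reduce_gdelta {Y : Type*} [TopologicalSpace Y] [SecondCountableTopology Y]
    (hY : IsTopologicalBasis {s : Set Y | IsClopen s}) {A : Set Y} (hA : IsGδ A) :
    ∃ g : Y → ℕ → Bool, Continuous g ∧ ∀ y, y ∈ A ↔ ∃ᶠ n in atTop, g y n = true := by
  classical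
  obtain ⟨U, hU, rfl⟩ := hA.eq_iInter_nat
  have hC : ∀ n, ∃ C : ℕ → Set Y, (∀ j, IsClopen (C j)) ∧ ⋃ j, C j = U n := by
    intro n
    obtain ⟨T, hT, hTs, hTu⟩ := isOpen_sUnion_countable {s | IsClopen s ∧ s ⊆ U n}
      fun s hs => hs.1.isOpen
    obtain ⟨C, hC⟩ := (hT.insert ∅).exists_eq_range (Set.insert_nonempty _ _)
    refine ⟨C, fun j => ?_, ?_⟩
    · have : C j ∈ insert ∅ T := hC ▸ Set.mem_range_self j
      rcases this with h | h
      · rw [h]; exact isClopen_empty
      · exact (hTs h).1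
    · rw [← Set.sUnion_range, ← hC, Set.sUnion_insert, Set.empty_union, hTu]
      exact (hY.open_eq_sUnion' (hU n)).symm
  choose C hC hCU using hC
  let P : Y → ℕ → ℕ → Prop := fun y m k => ∀ n < k, ∃ j ≤ m, y ∈ C n j
  let k : ℕ → Y → ℕ := fun m y => Nat.findGreatest (P y m) m
  have hP : ∀ m i, IsClopen {y | P y m i} := by
    intro m i
    have : {y | P y m i} = ⋂ n ∈ Set.Iio i, ⋃ j ∈ Set.Iic m, C n j := by ext y; simp [P]
    rw [this]
    exact (Set.finite_Iio i).isClopen_biInter fun n _ =>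
      (Set.finite_Iic m).isClopen_biUnion fun j _ => hC n j
  have hk : ∀ m, IsLocallyConstant (k m) := by
    intro m
    have : ∀ b, IsLocallyConstant fun y => Nat.findGreatest (P y m) b := by
      intro b
      induction b with
      | zero => exact IsLocallyConstant.const 0
      | succ b ih =>
        have h1 : IsLocallyConstant fun y => decide (P y m (b + 1)) :=
          (IsLocallyConstant.iff_continuous _).2 ((continuous_boolIndicator_iff_isClopen _).2
            (hP m (b + 1)) |>.congr fun y => by simp [Set.boolIndicator])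
        have h2 := h1.comp₂ ih fun c v => if c = true then b + 1 else v
        simpa [Nat.findGreatest_succ] using h2
    exact this m
  have hmono : ∀ y, Monotone fun m => k m y := fun y m m' h =>
    Nat.findGreatest_mono (fun i hi n hn => (hi n hn).imp fun j hj => ⟨hj.1.trans h, hj.2⟩) h
  refine ⟨fun y m => decide (k m y < k (m + 1) y), continuous_pi fun m =>
    ((hk m).comp₂ (hk (m + 1)) fun a b => decide (a < b)).continuous, fun y => ?_⟩
  have h1 : (∃ᶠ m in atTop, decide (k m y < k (m + 1) y) = true) ↔ ∀ i, ∃ m, i ≤ k m y := by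
    constructor
    · intro h i
      induction i with
      | zero => exact ⟨0, Nat.zero_le _⟩
      | succ i ih =>
        obtain ⟨m, hm⟩ := ih
        obtain ⟨m', h2, h3⟩ := (h.and_eventually (eventually_ge_atTop m)).exists
        have h4 : k m y ≤ k m' y := hmono y h3
        exact ⟨m' + 1, by have := of_decide_eq_true h2; omega⟩
    · intro h
      by_contra hn
      obtain ⟨n, hn⟩ := eventually_atTop.1 (not_frequently.1 hn)
      have hc : ∀ m, n ≤ m → k m y ≤ k n y := by
        intro m hm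
        induction m, hm using Nat.le_induction with
        | base => rfl
        | succ m hm ih =>
          have := hn m hm
          simp only [decide_eq_true_eq, not_lt] at this
          exact this.trans ih
      obtain ⟨m, hm⟩ := h (k n y + 1)
      have h4 : k m y ≤ k (max m n) y := hmono y (le_max_left _ _)
      have := hc (max m n) (le_max_right _ _)
      omega
  rw [h1, Set.mem_iInter]
  constructor
  · intro h i
    have h2 : ∀ n, ∃ j, y ∈ C n j := fun n => Set.mem_iUnion.1 (hCU n ▸ h n)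
    choose j hj using h2
    refine ⟨max i ((Finset.range i).sup j), Nat.le_findGreatest (le_max_left _ _) fun n hn =>
      ⟨j n, le_max_of_le_right (Finset.le_sup (f := j) (Finset.mem_range.2 hn)), hj n⟩⟩
  · intro h n
    obtain ⟨m, hm⟩ := h (n + 1)
    have h2 : P y m (k m y) := Nat.findGreatest_spec (P := P y m) (Nat.zero_le m)
      fun _ h => absurd h (Nat.not_lt_zero _)
    obtain ⟨j, -, hj⟩ := h2 n hm
    rw [← hCU n]
    exact Set.mem_iUnion.2 ⟨j, hj⟩

variable {X : Type*} [NormedAddCommGroup X] [NormedSpace ℝ X] [CompleteSpace X] [SeparableSpace X]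

theorem exists_bad (hX : ¬ FiniteDimensional ℝ X)
    (hl : IsEmpty (X ≃ₗᵢ[ℝ] lp (fun _ : ℕ => ℝ) 2)) {U : Set (ℕ → X)} {x : ℕ → X}
    (hU : U ∈ 𝓝 x) : ∃ ν ∈ Bind \ cls X, ν ∈ closure (mu '' U) := by
  by_contra hcon
  have hF : ∀ μ ∈ Bind, μ ∈ closure (mu '' U) → μ ∈ cls X := fun μ h1 h2 => by
    by_contra h3; exact hcon ⟨μ, ⟨h1, h3⟩, h2⟩
  rw [nhds_pi, Filter.mem_pi] at hU
  obtain ⟨I, hI, s, hs, hst⟩ := hU
  have hb := fun v => Metric.mem_nhds_iff.1 (hs v)
  choose r hr hrs using hb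
  obtain ⟨ε, hε, hεr⟩ : ∃ ε > 0, ∀ i ∈ I, ε ≤ r i := by
    have : ∀ᶠ η in 𝓝[>] (0 : ℝ), ∀ v ∈ I, η ≤ r v :=
      (eventually_all_finite hI).2 fun v _ => nhdsWithin_le_nhds (ge_mem_nhds (hr v))
    obtain ⟨η, h1, h2⟩ := (this.and self_mem_nhdsWithin).exists
    exact ⟨η, h2, h1⟩
  obtain ⟨n, hn⟩ := hI.bddAbove
  have hx : Good (closure (mu '' U)) (n + 1) x ε := fun w hw =>
    subset_closure ⟨w, hst fun i hi => hrs i (by
      rw [mem_ball_iff_norm]
      exact (hw i (Nat.lt_succ_of_le (hn hi))).trans_le (hεr i hi)), rfl⟩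
  let := InnerProductSpace.ofNorm ℝ (parallelogram_of_good hX isClosed_closure hε hx
    (rigid_of hF (n + 1)))
  exact hl.false (equiv_l2 hX).some

/-- The isometry class of a separable infinite-dimensional Banach space that is not the Hilbert
space is `G_δ`-hard, by reductions with values in `Bind`. -/
theorem gdelta_hard (hX : ¬ FiniteDimensional ℝ X)
    (hl : IsEmpty (X ≃ₗᵢ[ℝ] lp (fun _ : ℕ => ℝ) 2)) {Y : Type*} [TopologicalSpace Y]
    [SecondCountableTopology Y] (hY : IsTopologicalBasis {s : Set Y | IsClopen s}) {A : Set Y}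
    (hA : IsGδ A) : ∃ f : Y → (ℕ →₀ ℚ) → ℝ, Continuous f ∧
      ∀ y, f y ∈ Bind ∧ (f y ∈ cls X ↔ y ∈ A) := by
  obtain ⟨g, hg, hgA⟩ := reduce_gdelta hY hA
  obtain ⟨D, hD, hG, hd⟩ := mem_residual.1 (generic_residual hX)
  obtain ⟨G, hG', rfl⟩ := hG.eq_iInter_nat
  let := upgradeIsCompletelyMetrizable (ℕ → X)
  let := upgradeIsCompletelyMetrizable ((ℕ →₀ ℚ) → ℝ)
  obtain ⟨f, hf, hf'⟩ := hurewicz (continuous_mu (Z := X)) hG'
    (fun n => hd.mono (Set.iInter_subset G n)) (C := Bind \ cls X)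
    fun w r hr => exists_bad hX hl (ball_mem_nhds w hr)
  refine ⟨f ∘ g, hf.comp hg, fun y => ?_⟩
  rw [hgA]
  by_cases h : ∃ᶠ n in atTop, g y n = true
  · obtain ⟨w, hw, e⟩ := (hf' _).1 h
    rw [Function.comp_apply, ← e]
    exact ⟨(hD hw).2, iff_of_true ⟨w, (hD hw).1, fun _ => rfl⟩ h⟩
  · exact ⟨((hf' _).2 h).1, iff_of_false ((hf' _).2 h).2 h⟩

end Pool.Agent.Lib.MP_ab3705_an
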