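import Mathlib

namespace Pool.Agent.Lib.MP_ab3705_an

open Filter Topology Set

/-- A Hurewicz scheme. -/
theorem hurewicz {D Z : Type*} [MetricSpace D] [CompleteSpace D] [Nonempty D] [MetricSpace Z]
    (Φ : D → Z) (hΦ : Continuous Φ) (W : ℕ → Set D) (hWo : ∀ n, IsOpen (W n))
    (hWd : ∀ n, Dense (W n)) (hWa : Antitone W) (N : Set Z)
    (h : ∀ U : Set D, IsOpen U → U.Nonempty → ∃ z ∈ closure (Φ '' U), z ∈ N) :
    ∃ f : (ℕ → Bool) → Z, Continuous f ∧
      (∀ x, (∃ᶠ n in atTop, x n = true) → ∃ d, (∀ n, d ∈ W n) ∧ f x = Φ d) ∧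
      (∀ x, (∀ᶠ n in atTop, x n = false) → f x ∈ N) := by
  let S := {p : Set D × Z // IsOpen p.1 ∧ p.1.Nonempty ∧ p.2 ∈ closure (Φ '' p.1) ∧ p.2 ∈ N}
  have hstep : ∀ (n : ℕ) (p : S), ∃ q : S, closure q.1.1 ⊆ p.1.1 ∩ W n ∧
      (∀ a ∈ q.1.1, ∀ b ∈ q.1.1, dist a b ≤ (1 / 2) ^ n) ∧
      (∀ a ∈ q.1.1, dist (Φ a) p.1.2 ≤ (1 / 2) ^ n) := by
    rintro n ⟨⟨U, z⟩, hU, -, hz, -⟩
    have hr : (0 : ℝ) < (1 / 2) ^ n := by positivity
    obtain ⟨_, ⟨d, hd, rfl⟩, hdz⟩ := Metric.mem_closure_iff.1 hz _ hr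
    have ho : IsOpen (U ∩ Φ ⁻¹' Metric.ball z ((1 / 2) ^ n)) :=
      hU.inter (Metric.isOpen_ball.preimage hΦ)
    obtain ⟨d', hd'1, hd'2⟩ := (hWd n).inter_open_nonempty _ ho
      ⟨d, hd, by simpa [dist_comm] using hdz⟩
    obtain ⟨r, hr0, hrs⟩ := Metric.isOpen_iff.1 (ho.inter (hWo n)) d' ⟨hd'1, hd'2⟩
    set ρ := min (r / 2) ((1 / 2) ^ n / 2) with hρ
    have hρ0 : 0 < ρ := lt_min (by linarith) (by linarith)
    have hρ1 : ρ < r := (min_le_left _ _).trans_lt (by linarith)
    have hρ2 : ρ ≤ (1 / 2) ^ n / 2 := min_le_right _ _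
    obtain ⟨z', hz'1, hz'2⟩ := h (Metric.ball d' ρ) Metric.isOpen_ball (Metric.nonempty_ball.2 hρ0)
    have hsub : closure (Metric.ball d' ρ) ⊆ Metric.ball d' r :=
      Metric.closure_ball_subset_closedBall.trans (Metric.closedBall_subset_ball hρ1)
    refine ⟨⟨(Metric.ball d' ρ, z'), Metric.isOpen_ball, Metric.nonempty_ball.2 hρ0, hz'1, hz'2⟩,
      fun a ha => ⟨(hrs (hsub ha)).1.1, (hrs (hsub ha)).2⟩, fun a ha b hb => ?_, fun a ha => ?_⟩
    · have h1 : dist a d' < ρ := ha
      have h2 : dist b d' < ρ := hb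
      have := dist_triangle_right a b d'
      linarith
    · exact le_of_lt (hrs (hsub (subset_closure ha))).1.2
  choose step hs1 hs2 hs3 using hstep
  obtain ⟨z0, hz0, hz0'⟩ := h univ isOpen_univ univ_nonempty
  let p0 : S := ⟨(univ, z0), isOpen_univ, univ_nonempty, hz0, hz0'⟩
  let st : (ℕ → Bool) → ℕ → S := fun x n =>
    Nat.rec p0 (fun n p => if x n = true then step n p else p) n
  have st_succ : ∀ x n, st x (n + 1) = if x n = true then step n (st x n) else st x n :=
    fun x n => rfl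
  let z : (ℕ → Bool) → ℕ → Z := fun x n => (st x n).1.2
  have hz : ∀ x n, dist (z x n) (z x (n + 1)) ≤ 1 * (1 / 2) ^ n := by
    intro x n
    simp only [z, st_succ, one_mul]
    split_ifs
    · rw [dist_comm]
      have hc : closure (Φ '' (step n (st x n)).1.1) ⊆
          Metric.closedBall (st x n).1.2 ((1 / 2) ^ n) := by
        refine closure_minimal ?_ Metric.isClosed_closedBall
        rintro _ ⟨a, ha, rfl⟩
        exact hs3 n _ a ha
      exact hc (step n (st x n)).2.2.2.1
    · simp
  have hloc : ∀ n x y, (∀ i < n, x i = y i) → st x n = st y n := by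
    intro n
    induction n with
    | zero => intro x y _; rfl
    | succ n ih =>
      intro x y hxy
      rw [st_succ, st_succ, ih x y fun i hi => hxy i (by omega), hxy n (by omega)]
  have hzc : ∀ n, Continuous fun x => z x n := by
    intro n
    refine IsLocallyConstant.continuous ?_
    rw [IsLocallyConstant.iff_eventually_eq]
    intro x
    have : ∀ᶠ y in 𝓝 x, ∀ i ∈ Finset.range n, y i = x i := by
      rw [Finset.eventually_all]
      intro i _
      exact ((continuous_apply i).tendsto x).eventually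
        (p := fun b => b = x i) (by simp [nhds_discrete])
    filter_upwards [this] with y hy
    simp only [z]
    rw [hloc n y x fun i hi => hy i (Finset.mem_range.2 hi)]
  have hanti : ∀ x, Antitone fun n => (st x n).1.1 := by
    intro x
    refine antitone_nat_of_succ_le fun n => ?_
    simp only [st_succ]
    split_ifs
    · exact fun a ha => (hs1 n _ (subset_closure ha)).1
    · exact le_rfl
  have hcau : ∀ x, CauchySeq (z x) := fun x =>
    cauchySeq_of_le_geometric (1 / 2) 1 (by norm_num) (hz x)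
  have hhalf : Tendsto (fun n : ℕ => ((1 : ℝ) / 2) ^ n) atTop (𝓝 0) :=
    tendsto_pow_atTop_nhds_zero_of_lt_one (by norm_num) (by norm_num)
  have hA : ∀ x, (∃ᶠ n in atTop, x n = true) →
      ∃ d, (∀ n, d ∈ W n) ∧ Tendsto (z x) atTop (𝓝 (Φ d)) := by
    intro x hx
    choose a ha using fun n => (st x n).2.2.1
    have hac : CauchySeq a := by
      rw [Metric.cauchySeq_iff']
      intro ε hε
      obtain ⟨n, hn1, hn2⟩ := (hx.and_eventually (hhalf.eventually (gt_mem_nhds hε))).exists
      refine ⟨n + 1, fun m hm => lt_of_le_of_lt ?_ hn2⟩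
      have e : st x (n + 1) = step n (st x n) := by rw [st_succ, if_pos hn1]
      refine hs2 n (st x n) _ ?_ _ ?_
      · rw [← e]; exact hanti x hm (ha m)
      · rw [← e]; exact ha (n + 1)
    obtain ⟨d, hd⟩ := cauchySeq_tendsto_of_complete hac
    have hdc : ∀ n, d ∈ closure (st x n).1.1 := fun n =>
      mem_closure_of_tendsto hd (eventually_atTop.2 ⟨n, fun m hm => hanti x hm (ha m)⟩)
    have hd1 : ∀ n, x n = true → d ∈ (st x n).1.1 ∩ W n := by
      intro n hn
      have := hdc (n + 1)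
      rw [st_succ, if_pos hn] at this
      exact hs1 n _ this
    have hd2 : ∀ n, d ∈ (st x n).1.1 := by
      intro n
      obtain ⟨m, hm1, hm2⟩ := (hx.and_eventually (eventually_ge_atTop n)).exists
      exact hanti x hm2 (hd1 m hm1).1
    refine ⟨d, fun n => ?_, ?_⟩
    · obtain ⟨m, hm1, hm2⟩ := (hx.and_eventually (eventually_ge_atTop n)).exists
      exact hWa hm2 (hd1 m hm1).2
    · have : (atTop ⊓ 𝓟 {n | x n = true}).NeBot := frequently_iff_neBot.1 hx
      refine tendsto_nhds_of_cauchySeq_of_subseq (hcau x) (f := id)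
        (p := atTop ⊓ 𝓟 {n | x n = true}) ?_ ?_
      · exact tendsto_id.mono_left inf_le_left
      · rw [tendsto_iff_dist_tendsto_zero]
        refine squeeze_zero' (Eventually.of_forall fun _ => dist_nonneg) ?_
          (hhalf.mono_left inf_le_left)
        refine eventually_inf_principal.2 (Eventually.of_forall fun n hn => ?_)
        have := hd2 (n + 1)
        have hn' : x n = true := hn
        rw [st_succ, if_pos hn'] at this
        rw [dist_comm]
        exact hs3 n _ d this
  have hB : ∀ x, (∀ᶠ n in atTop, x n = false) → ∃ w ∈ N, Tendsto (z x) atTop (𝓝 w) := by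
    intro x hx
    obtain ⟨n, hn⟩ := eventually_atTop.1 hx
    have : ∀ m, n ≤ m → st x m = st x n := by
      intro m hm
      induction m, hm using Nat.le_induction with
      | base => rfl
      | succ m hm ih => rw [st_succ, if_neg (by simp [hn m hm]), ih]
    refine ⟨z x n, (st x n).2.2.2.2, tendsto_const_nhds.congr' ?_⟩
    filter_upwards [eventually_ge_atTop n] with m hm
    simp only [z, this m hm]
  have hlim : ∀ x, ∃ w, Tendsto (z x) atTop (𝓝 w) := by
    intro x
    by_cases hx : ∃ᶠ n in atTop, x n = true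
    · obtain ⟨d, -, hd⟩ := hA x hx
      exact ⟨_, hd⟩
    · obtain ⟨w, -, hw⟩ := hB x (by simpa using hx)
      exact ⟨w, hw⟩
  choose f hf using hlim
  refine ⟨f, ?_, fun x hx => ?_, fun x hx => ?_⟩
  · refine TendstoUniformly.continuous (F := fun n x => z x n) (p := atTop) ?_
      (Eventually.of_forall hzc).frequently
    rw [Metric.tendstoUniformly_iff]
    intro ε hε
    filter_upwards [hhalf.eventually (gt_mem_nhds (half_pos hε))] with n hn x
    have := dist_le_of_le_geometric_of_tendsto (1 / 2) 1 (by norm_num) (hz x) (hf x) n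
    rw [dist_comm]
    have e : (1 : ℝ) * (1 / 2) ^ n / (1 - 1 / 2) = 2 * (1 / 2) ^ n := by ring
    rw [e] at this
    linarith
  · obtain ⟨d, hd1, hd2⟩ := hA x hx
    exact ⟨d, hd1, tendsto_nhds_unique (hf x) hd2⟩
  · obtain ⟨w, hw1, hw2⟩ := hB x hx
    rw [tendsto_nhds_unique (hf x) hw2]
    exact hw1

/-- Every G-delta subset of a zero-dimensional second countable space reduces to the set of
sequences with infinitely many ones. -/
theorem gd_reduce {T : Type*} [TopologicalSpace T] [SecondCountableTopology T]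
    (hT : TopologicalSpace.IsTopologicalBasis {s : Set T | IsClopen s}) {G : Set T}
    (hG : IsGδ G) :
    ∃ g : T → ℕ → Bool, Continuous g ∧ ∀ t, (∃ᶠ n in atTop, g t n = true) ↔ t ∈ G := by
  classical
  obtain ⟨U, hUo, rfl⟩ := hG.eq_iInter_nat
  have hC : ∀ n, ∃ C : ℕ → Set T, (∀ k, IsClopen (C k)) ∧ ⋃ k, C k = U n := by
    intro n
    obtain ⟨S, hS, hSU⟩ := hT.open_eq_sUnion (hUo n)
    obtain ⟨S', hc, hsub, hS'⟩ := TopologicalSpace.isOpen_sUnion_countable S
      (fun s hs => (hS hs).isOpen)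
    obtain ⟨C, hC⟩ := (hc.insert ∅).exists_eq_range (insert_nonempty _ _)
    refine ⟨C, fun k => ?_, ?_⟩
    · have : C k ∈ insert ∅ S' := hC ▸ mem_range_self k
      rcases this with h | h
      · rw [h]; exact isClopen_empty
      · exact hS (hsub h)
    · rw [← sUnion_range, ← hC, sUnion_insert, empty_union, hS', ← hSU]
  choose C hC1 hC2 using hC
  let A : ℕ → ℕ → Set T := fun n j => ⋂ m ∈ Finset.range n, ⋃ k ∈ Finset.range j, C m k
  have hA : ∀ n j, IsClopen (A n j) := fun n j =>
    isClopen_biInter_finset fun m _ => isClopen_biUnion_finset fun k _ => hC1 m k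
  have memA : ∀ n j t, t ∈ A n j ↔ ∀ m < n, ∃ k < j, t ∈ C m k := by
    intro n j t; simp [A]
  let B : ℕ → Set T := fun j => ⋃ n ∈ Finset.range (j + 2), (A n (j + 1) ∩ (if n ≤ j then A n j else ∅)ᶜ)
  have hB : ∀ j, IsClopen (B j) := fun j =>
    isClopen_biUnion_finset fun n _ => (hA _ _).inter (IsClopen.compl (by
      split_ifs
      · exact hA _ _
      · exact isClopen_empty))
  have memB : ∀ j t, t ∈ B j ↔ ∃ n ≤ j + 1, t ∈ A n (j + 1) ∧ ¬ (n ≤ j ∧ t ∈ A n j) := by
    intro j t
    simp only [B, mem_iUnion, Finset.mem_range, mem_inter_iff, mem_compl_iff, exists_prop]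
    refine exists_congr fun n => and_congr (by omega) (and_congr_right fun _ => ?_)
    split_ifs with h <;> simp [h]
  refine ⟨fun t j => decide (t ∈ B j), continuous_pi fun j => ?_, fun t => ?_⟩
  · refine IsLocallyConstant.continuous ?_
    rw [IsLocallyConstant.iff_eventually_eq]
    intro t
    by_cases ht : t ∈ B j
    · filter_upwards [(hB j).isOpen.mem_nhds ht] with s hs
      simp [ht, hs]
    · filter_upwards [(hB j).compl.isOpen.mem_nhds ht] with s hs
      have : s ∉ B j := hs
      simp [ht, this]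
  · simp only [decide_eq_true_eq, mem_iInter]
    constructor
    · intro hfr
      by_contra hn
      push Not at hn
      obtain ⟨m, hm⟩ := hn
      have hno : ∀ n j, t ∈ A n j → n ≤ m := by
        intro n j h
        by_contra hh
        obtain ⟨k, -, hk⟩ := (memA n j t).1 h m (by omega)
        exact hm (hC2 m ▸ mem_iUnion.2 ⟨k, hk⟩)
      have hev : ∀ n, ∀ᶠ j in atTop, ¬ (t ∈ A n (j + 1) ∧ ¬ (n ≤ j ∧ t ∈ A n j)) := by
        intro n
        by_cases h : ∃ j, t ∈ A n j
        · obtain ⟨j0, hj0⟩ := h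
          filter_upwards [eventually_ge_atTop j0, eventually_ge_atTop n] with j h1 h2
          rintro ⟨-, h3⟩
          refine h3 ⟨h2, (memA n j t).2 fun m' hm' => ?_⟩
          obtain ⟨k, hk1, hk2⟩ := (memA n j0 t).1 hj0 m' hm'
          exact ⟨k, by omega, hk2⟩
        · exact Eventually.of_forall fun j hj => h ⟨_, hj.1⟩
      have hev' : ∀ᶠ j in atTop, ∀ n ∈ Finset.range (m + 1),
          ¬ (t ∈ A n (j + 1) ∧ ¬ (n ≤ j ∧ t ∈ A n j)) := by
        rw [Finset.eventually_all]
        exact fun n _ => hev n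
      obtain ⟨j, hj1, hj2⟩ := (hfr.and_eventually hev').exists
      obtain ⟨n, -, hn⟩ := (memB j t).1 hj1
      exact hj2 n (Finset.mem_range.2 (Nat.lt_succ_of_le (hno n _ hn.1))) hn
    · intro hall
      rw [frequently_atTop]
      intro a
      have hex : ∃ j, a + 1 ≤ j ∧ t ∈ A (a + 1) j := by
        have : ∀ m, ∃ k, t ∈ C m k := fun m => mem_iUnion.1 (hC2 m ▸ hall m)
        choose k hk using this
        refine ⟨max (a + 1) ((Finset.range (a + 1)).sup k + 1), le_max_left _ _,
          (memA _ _ t).2 fun m hm => ⟨k m, ?_, hk m⟩⟩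
        have := Finset.le_sup (f := k) (Finset.mem_range.2 hm)
        have := le_max_right (a + 1) ((Finset.range (a + 1)).sup k + 1)
        omega
      have h1 := Nat.find_spec hex
      obtain ⟨j, hj⟩ : ∃ j, Nat.find hex = j + 1 := ⟨Nat.find hex - 1, by omega⟩
      refine ⟨j, by omega, (memB j t).2 ⟨a + 1, by omega, hj ▸ h1.2, ?_⟩⟩
      exact Nat.find_min hex (by omega)

end Pool.Agent.Lib.MP_ab3705_an
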