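import Pool.Agent.Lib.MP_ab3705_an.FsA
import Pool.Agent.Lib.MP_ab3705_an.Hur

namespace Pool.Agent.Lib.MP_ab3705_an

open Filter Topology Set TopologicalSpace

variable {X : Type*} [NormedAddCommGroup X] [NormedSpace ℝ X] [CompleteSpace X] [SeparableSpace X]

theorem exists_box {U : Set (ℕ → X)} (hU : IsOpen U) {x : ℕ → X} (hx : x ∈ U) :
    ∃ (n : ℕ) (ε : ℝ), 0 < ε ∧ ∀ w : ℕ → X, (∀ i < n, ‖w i - x i‖ < ε) → w ∈ U := by
  have hk := hU.mem_nhds hx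
  rw [nhds_pi, Filter.mem_pi] at hk
  obtain ⟨I, hI, s, hs, hst⟩ := hk
  have hb := fun v => Metric.mem_nhds_iff.1 (hs v)
  choose r hr hrs using hb
  obtain ⟨ε, hε, hεr⟩ : ∃ ε > 0, ∀ i ∈ I, ε ≤ r i := by
    have : ∀ᶠ η in 𝓝[>] (0 : ℝ), ∀ v ∈ I, η ≤ r v :=
      (eventually_all_finite hI).2 fun v _ => nhdsWithin_le_nhds (ge_mem_nhds (hr v))
    obtain ⟨η, h1, h2⟩ := (this.and self_mem_nhdsWithin).exists
    exact ⟨η, h2, h1⟩
  obtain ⟨n, hn⟩ := hI.bddAbove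
  refine ⟨n + 1, ε, hε, fun w hw => hst fun i hi => hrs i ?_⟩
  rw [mem_ball_iff_norm]
  exact (hw i (Nat.lt_succ_of_le (hn hi))).trans_le (hεr i hi)

theorem local_escape (hX : ¬ FiniteDimensional ℝ X)
    (hl : IsEmpty (X ≃ₗᵢ[ℝ] lp (fun _ : ℕ => ℝ) 2)) (U : Set (ℕ → X)) (hU : IsOpen U)
    (hne : U.Nonempty) : ∃ z ∈ closure (mu '' U), z ∈ Bind \ cls X := by
  by_contra h
  push Not at h
  obtain ⟨x, hx⟩ := hne
  obtain ⟨n, ε, hε, hb⟩ := exists_box hU hx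
  have hg : Good (closure (mu '' U)) n x ε := fun w hw => subset_closure ⟨w, hb w hw, rfl⟩
  have hR : Rigid (closure (mu '' U)) n X := rigid_of (fun μ hμ h' => by
    by_contra hc
    exact h μ h' ⟨hμ, hc⟩) n
  let := InnerProductSpace.ofNorm ℝ (parallelogram_of_good hX isClosed_closure hε hg hR)
  obtain ⟨e⟩ := equiv_l2 hX
  exact hl.false e

theorem gd_hard (hX : ¬ FiniteDimensional ℝ X)
    (hl : IsEmpty (X ≃ₗᵢ[ℝ] lp (fun _ : ℕ => ℝ) 2)) {T : Type*} [TopologicalSpace T]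
    [SecondCountableTopology T] (hT : IsTopologicalBasis {s : Set T | IsClopen s}) {G : Set T}
    (hG : IsGδ G) :
    ∃ f : T → (ℕ →₀ ℚ) → ℝ, Continuous f ∧ (∀ t, f t ∈ Bind) ∧ ∀ t, f t ∈ cls X ↔ t ∈ G := by
  obtain ⟨D, hD, hDG, hDd⟩ := mem_residual.1 (generic_residual hX)
  obtain ⟨W0, hW0, rfl⟩ := hDG.eq_iInter_nat
  let W : ℕ → Set (ℕ → X) := fun n => ⋂ m ∈ Finset.range (n + 1), W0 m
  have hWo : ∀ n, IsOpen (W n) := fun n => isOpen_biInter_finset fun m _ => hW0 m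
  have hWd : ∀ n, Dense (W n) := fun n => hDd.mono fun w hw =>
    mem_iInter₂.2 fun m _ => mem_iInter.1 hw m
  have hWa : Antitone W := fun a b hab w hw => mem_iInter₂.2 fun m hm =>
    mem_iInter₂.1 hw m (Finset.mem_range.2 (by have := Finset.mem_range.1 hm; omega))
  have hcont : Continuous (mu : (ℕ → X) → (ℕ →₀ ℚ) → ℝ) := continuous_mu
  have hesc := local_escape hX hl
  let _ := upgradeIsCompletelyMetrizable (ℕ → X)
  let _ := metrizableSpaceMetric ((ℕ →₀ ℚ) → ℝ)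
  obtain ⟨f, hf, hf1, hf2⟩ := hurewicz (mu : (ℕ → X) → (ℕ →₀ ℚ) → ℝ) hcont W hWo hWd hWa
    (Bind \ cls X) hesc
  obtain ⟨g, hg, hgG⟩ := gd_reduce hT hG
  have key : ∀ x : ℕ → Bool, (∃ᶠ n in atTop, x n = true) → f x ∈ Bind ∧ f x ∈ cls X := by
    intro x hx
    obtain ⟨d, hd, e⟩ := hf1 x hx
    have := hD (mem_iInter.2 fun m => mem_iInter₂.1 (hd m) m (Finset.self_mem_range_succ m))
    rw [e]
    exact ⟨this.2, d, this.1, fun _ => rfl⟩
  refine ⟨f ∘ g, hf.comp hg, fun t => ?_, fun t => ?_⟩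
  · by_cases hx : ∃ᶠ n in atTop, g t n = true
    · exact (key _ hx).1
    · exact (hf2 _ (by simpa using hx)).1
  · rw [← hgG]
    refine ⟨fun h => ?_, fun hx => (key _ hx).2⟩
    by_contra hx
    exact (hf2 _ (by simpa using hx)).2 h

end Pool.Agent.Lib.MP_ab3705_an
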