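import Pool.Agent.Lib.MP_ab3705_an.Ext
import Pool.Agent.Lib.MP_ab3705_an.GD.Defs

namespace Pool.Agent.Lib.MP_ab3705_an

open TopologicalSpace

/-- A separable infinite-dimensional Hilbert space is isometric to the sequence space. -/
theorem hilbert_iso_inner (X : Type*) [NormedAddCommGroup X] [InnerProductSpace ℝ X]
    [CompleteSpace X] [SeparableSpace X] (hX : ¬ FiniteDimensional ℝ X) :
    Nonempty (X ≃ₗᵢ[ℝ] lp (fun _ : ℕ => ℝ) 2) := by
  obtain ⟨w, b, hb⟩ := exists_hilbertBasis ℝ X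
  have hon := b.orthonormal
  have hc : Countable w := by
    refine Pairwise.countable_of_isOpen_disjoint (s := fun i : w => Metric.ball (b i) (1 / 2))
      (fun i j hij => ?_) (fun i => Metric.isOpen_ball) (fun i => Metric.nonempty_ball.2 (by norm_num))
    refine Metric.ball_disjoint_ball ?_
    rw [dist_eq_norm]
    have h1 : ‖b i - b j‖ ^ 2 = 2 := by
      rw [norm_sub_sq_real, hon.1 i, hon.1 j, hon.2 hij]; norm_num
    nlinarith [norm_nonneg (b i - b j)]
  have hi : Infinite w := by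
    by_contra hfin
    rw [not_infinite_iff_finite] at hfin
    apply hX
    have hfd : FiniteDimensional ℝ (Submodule.span ℝ (Set.range b)) :=
      FiniteDimensional.span_of_finite ℝ (Set.finite_range b)
    have hcl := (Submodule.span ℝ (Set.range b)).closed_of_finiteDimensional
    have htop : Submodule.span ℝ (Set.range b) = ⊤ := by
      rw [← b.dense_span, hcl.submodule_topologicalClosure_eq]
    rw [htop] at hfd
    exact Submodule.topEquiv.finiteDimensional
  obtain ⟨e⟩ : Nonempty (ℕ ≃ w) := nonempty_equiv_of_countable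
  have hon' : Orthonormal ℝ (b ∘ e) := hon.comp e e.injective
  have hsp : ⊤ ≤ (Submodule.span ℝ (Set.range (b ∘ e))).topologicalClosure := by
    rw [e.surjective.range_comp, b.dense_span]
  exact ⟨(HilbertBasis.mk hon' hsp).repr⟩

theorem hilbert_iso (X : Type*) [NormedAddCommGroup X] [NormedSpace ℝ X]
    [CompleteSpace X] [SeparableSpace X] (hX : ¬ FiniteDimensional ℝ X)
    (h : ∀ x y : X, ‖x + y‖ * ‖x + y‖ + ‖x - y‖ * ‖x - y‖ = 2 * (‖x‖ * ‖x‖ + ‖y‖ * ‖y‖)) :
    Nonempty (X ≃ₗᵢ[ℝ] lp (fun _ : ℕ => ℝ) 2) := by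
  let _ : InnerProductSpace ℝ X := InnerProductSpace.ofNorm ℝ h
  exact hilbert_iso_inner X hX

theorem add_eq_comb {X : Type*} [NormedAddCommGroup X] [NormedSpace ℝ X] (T : (ℕ →₀ ℚ) →+ X)
    (v : ℕ →₀ ℚ) : T v = comb (fun i => T (Finsupp.single i 1)) v := by
  induction v using Finsupp.induction_linear with
  | zero => simp [comb_zero]
  | add u v hu hv => rw [map_add, comb_add, hu, hv]
  | single i q =>
    rw [comb_single, ← map_ratCast_smul T ℚ ℝ q]
    simp

theorem isoClass_eq (X : Type) [NormedAddCommGroup X] [NormedSpace ℝ X] :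
    GD.isoClass X = cls X := by
  ext μ
  constructor
  · rintro ⟨T, hT, hμ⟩
    refine ⟨fun i => T (Finsupp.single i 1), ?_, fun v => ?_⟩
    · have : comb (fun i => T (Finsupp.single i 1)) = T := funext fun v => (add_eq_comb T v).symm
      rw [this]; exact hT
    · rw [← add_eq_comb, hμ]
  · rintro ⟨x, hx, hμ⟩
    exact ⟨AddMonoidHom.mk' (comb x) (comb_add x), hx, fun v => (hμ v).symm⟩

/-- The class does not change under a linear isometric equivalence. -/
theorem isoClass_congr {X Y : Type} [NormedAddCommGroup X] [NormedSpace ℝ X]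
    [NormedAddCommGroup Y] [NormedSpace ℝ Y] (e : X ≃ₗᵢ[ℝ] Y) {μ : GD.V → ℝ}
    (h : μ ∈ GD.isoClass X) : μ ∈ GD.isoClass Y := by
  obtain ⟨T, hT, hμ⟩ := h
  refine ⟨(e.toLinearEquiv.toAddEquiv.toAddMonoidHom).comp T, ?_, fun v => ?_⟩
  · exact (e.surjective.denseRange).comp hT e.continuous
  · simpa using hμ v

/-- The parallelogram law for a pseudonorm. -/
def Par : Set (GD.V → ℝ) :=
  {μ | ∀ u v, μ (u + v) * μ (u + v) + μ (u - v) * μ (u - v) = 2 * (μ u * μ u + μ v * μ v)}

theorem isClosed_par : IsClosed Par := by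
  unfold Par
  simp only [Set.ofPred_forall]
  exact isClosed_iInter fun u => isClosed_iInter fun v => isClosed_eq (by fun_prop) (by fun_prop)

theorem class_l2 {μ : GD.V → ℝ} (hμ : μ ∈ GD.Pinf) :
    μ ∈ GD.isoClass (lp (fun _ : ℕ => ℝ) 2) ↔ μ ∈ Par := by
  constructor
  · rintro ⟨T, -, hT⟩ u v
    simp only [← hT, map_add, map_sub]
    have := parallelogram_law_with_norm ℝ (T u) (T v)
    nlinarith
  · intro hp
    obtain ⟨-, Z, _, _, _, hZ, T, hT, hn⟩ := hμ
    have : SeparableSpace Z := ⟨⟨_, Set.countable_range T, hT⟩⟩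
    have hpar : ∀ x y : Z,
        ‖x + y‖ * ‖x + y‖ + ‖x - y‖ * ‖x - y‖ = 2 * (‖x‖ * ‖x‖ + ‖y‖ * ‖y‖) := by
      intro x y
      refine hT.induction_on₂ (isClosed_eq (by fun_prop) (by fun_prop)) (fun u v => ?_) x y
      simp only [← map_add, ← map_sub, hn]
      exact hp u v
    obtain ⟨e⟩ := hilbert_iso Z hZ hpar
    exact isoClass_congr e ⟨T, hT, hn⟩

end Pool.Agent.Lib.MP_ab3705_an
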